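import Pool.Agent.Helper584.PG.Defs

set_option autoImplicit false

open MeasureTheory Set Filter Topology

noncomputable section

namespace Pool.Agent.Helper584.PG

/-- jets of a function `R` on `E` at a frame `(x, v, h)`: value, first derivatives in directions `v`
and `h`, second derivative of `t ↦ R (cos t x + sin t v)` and the mixed second derivative -/
def q0 (R : E → ℝ) (g : T) : ℝ := R g.1
def q1 (R : E → ℝ) (g : T) : ℝ := fderiv ℝ R g.1 g.2.1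
def q1' (R : E → ℝ) (g : T) : ℝ := fderiv ℝ R g.1 g.2.2
def q2 (R : E → ℝ) (g : T) : ℝ := fderiv ℝ (fderiv ℝ R) g.1 g.2.1 g.2.1 - fderiv ℝ R g.1 g.1
def q2' (R : E → ℝ) (g : T) : ℝ := fderiv ℝ (fderiv ℝ R) g.1 g.2.1 g.2.2

/-- length of a pair -/
def ln (a b : ℝ) : ℝ := Real.sqrt (a ^ 2 + b ^ 2)

/-- the multiplier: `(a₁ - a₂) * ph` has zero mean along sections for two bodies with the same
perimeters; `a, b, c` are the radial function and its first two derivatives -/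
def ph (a1 b1 c1 a2 b2 c2 : ℝ) : ℝ :=
  (a1 + a2) / (ln a1 b1 + ln a2 b2) - (c1 + c2) / (ln a1 b1 + ln a2 b2) +
    (b1 + b2) * ((a1 * b1 + b1 * c1) / ln a1 b1 + (a2 * b2 + b2 * c2) / ln a2 b2) /
      (ln a1 b1 + ln a2 b2) ^ 2

/-- the derivative of `ph` when `a' = 0`, `b' = B`, `c' = 2 C` -/
def vph (a1 b1 B1 c1 C1 a2 b2 B2 c2 C2 : ℝ) : ℝ :=
  -(a1 + a2) * (b1 * B1 / ln a1 b1 + b2 * B2 / ln a2 b2) / (ln a1 b1 + ln a2 b2) ^ 2 -
    (2 * (C1 + C2) / (ln a1 b1 + ln a2 b2) -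
      (c1 + c2) * (b1 * B1 / ln a1 b1 + b2 * B2 / ln a2 b2) / (ln a1 b1 + ln a2 b2) ^ 2) +
    (B1 + B2) * ((a1 * b1 + b1 * c1) / ln a1 b1 + (a2 * b2 + b2 * c2) / ln a2 b2) /
      (ln a1 b1 + ln a2 b2) ^ 2 +
    (b1 + b2) * (((a1 * B1 + B1 * c1 + 2 * b1 * C1) / ln a1 b1 -
        (a1 * b1 + b1 * c1) * (b1 * B1 / ln a1 b1) / (ln a1 b1) ^ 2) +
      ((a2 * B2 + B2 * c2 + 2 * b2 * C2) / ln a2 b2 -
        (a2 * b2 + b2 * c2) * (b2 * B2 / ln a2 b2) / (ln a2 b2) ^ 2)) /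
      (ln a1 b1 + ln a2 b2) ^ 2 -
    2 * (b1 + b2) * ((a1 * b1 + b1 * c1) / ln a1 b1 + (a2 * b2 + b2 * c2) / ln a2 b2) *
      (b1 * B1 / ln a1 b1 + b2 * B2 / ln a2 b2) / (ln a1 b1 + ln a2 b2) ^ 3

/-- multiplier, its fibre derivative, and the zero mean function, on frames -/
def PH (R1 R2 : E → ℝ) (g : T) : ℝ :=
  ph (q0 R1 g) (q1 R1 g) (q2 R1 g) (q0 R2 g) (q1 R2 g) (q2 R2 g)
def VPH (R1 R2 : E → ℝ) (g : T) : ℝ :=
  vph (q0 R1 g) (q1 R1 g) (q1' R1 g) (q2 R1 g) (q2' R1 g)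
    (q0 R2 g) (q1 R2 g) (q1' R2 g) (q2 R2 g) (q2' R2 g)
def FF (R1 R2 : E → ℝ) (g : T) : ℝ := (q0 R1 g - q0 R2 g) * PH R1 R2 g
def VFF (R1 R2 : E → ℝ) (g : T) : ℝ := (q0 R1 g - q0 R2 g) * VPH R1 R2 g

/-- the radial function of the unit ball of `N`, extended with homogeneity `-1` -/
def rad (N : E → ℝ) (x : E) : ℝ := (N x)⁻¹

end Pool.Agent.Helper584.PG
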