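import Pool.Agent.Helper584.PL.Defs
import Pool.Agent.Helper584.PL.P_fr_basic

set_option autoImplicit false

open MeasureTheory Set Filter Topology

noncomputable section

namespace Pool.Agent.Helper584.PG



theorem calcX (R : E → ℝ) (hR : ContDiffOn ℝ 2 R {0}ᶜ) (g : T) (hg : g ∈ Fr) (t : ℝ) :
    HasDerivAt (fun s => q0 R (rX s g)) (q1 R (rX t g)) t ∧
    HasDerivAt (fun s => q1 R (rX s g)) (q2 R (rX t g)) t := by
  have hF : rX t g ∈ Fr := fr_basic.2.1 t g hg
  have hne : (rX t g).1 ≠ 0 := by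
    intro h
    have h1 : ‖(rX t g).1‖ = 1 := hF.1
    rw [h, norm_zero] at h1
    exact zero_ne_one h1
  have hC : ContDiffAt ℝ 2 R (rX t g).1 :=
    hR.contDiffAt (isOpen_compl_singleton.mem_nhds hne)
  have hx : HasDerivAt (fun s => (rX s g).1) ((rX t g).2.1) t := by
    have h1 := ((Real.hasDerivAt_cos t).smul_const g.1).add ((Real.hasDerivAt_sin t).smul_const g.2.1)
    exact h1
  have hv : HasDerivAt (fun s => (rX s g).2.1) (-(rX t g).1) t := by
    have h1 := ((Real.hasDerivAt_sin t).neg.smul_const g.1).add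
      ((Real.hasDerivAt_cos t).smul_const g.2.1)
    have h2 : -(rX t g).1 = (-Real.cos t) • g.1 + (-Real.sin t) • g.2.1 := by
      show -(Real.cos t • g.1 + Real.sin t • g.2.1) = _
      rw [neg_add, neg_smul, neg_smul]
    rw [h2]
    exact h1
  have hd1 : HasFDerivAt R (fderiv ℝ R (rX t g).1) (rX t g).1 :=
    (hC.differentiableAt (by norm_num)).hasFDerivAt
  have hC1 : ContDiffAt ℝ 1 (fderiv ℝ R) (rX t g).1 := hC.fderiv_right (by norm_num)
  have hd2 : HasFDerivAt (fderiv ℝ R) (fderiv ℝ (fderiv ℝ R) (rX t g).1) (rX t g).1 :=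
    (hC1.differentiableAt (by norm_num)).hasFDerivAt
  refine ⟨hd1.comp_hasDerivAt t hx, ?_⟩
  have h3 : HasDerivAt (fun s => fderiv ℝ R (rX s g).1)
      (fderiv ℝ (fderiv ℝ R) (rX t g).1 (rX t g).2.1) t := hd2.comp_hasDerivAt t hx
  have h4 := h3.clm_apply hv
  rw [map_neg, ← sub_eq_add_neg] at h4
  exact h4

end Pool.Agent.Helper584.PG
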