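import Pool.Agent.Helper584.PL.Defs
import Pool.Agent.Helper584.PL.P_fr_basic
import Pool.Agent.Helper584.PL.P_calcX

set_option autoImplicit false

open MeasureTheory Set Filter Topology

noncomputable section

namespace Pool.Agent.Helper584.PG



theorem S_eq (N : E → ℝ) (hN : IsG N) (hc : ContDiffOn ℝ 2 (rad N) {0}ᶜ) (g : T) (hg : g ∈ Fr)
    (t : ℝ) : plS (nn N g) t = ln (q0 (rad N) (rX t g)) (q1 (rad N) (rX t g)) := by
  have hfr : rX t g ∈ Fr := fr_basic.2.1 t g hg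
  have hn1 : ‖cv g t‖ = 1 := hfr.1
  have hne : cv g t ≠ 0 := by
    intro h
    rw [h, norm_zero] at hn1
    exact zero_ne_one hn1
  have hNpos : 0 < nn N g t := hN.pos _ hne
  have hq0 : ∀ s, q0 (rad N) (rX s g) = (nn N g s)⁻¹ := fun s => rfl
  have hder := (calcX (rad N) hc g hg t).1
  generalize hr1 : q1 (rad N) (rX t g) = ρ' at hder ⊢
  have hρ0 : q0 (rad N) (rX t g) ≠ 0 := by
    rw [hq0]
    exact inv_ne_zero hNpos.ne'
  have hinv := hder.inv hρ0
  have hfun : (fun s => q0 (rad N) (rX s g))⁻¹ = nn N g := by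
    funext s
    show (q0 (rad N) (rX s g))⁻¹ = nn N g s
    rw [hq0, inv_inv]
  rw [hfun] at hinv
  have hd : deriv (nn N g) t = -ρ' / q0 (rad N) (rX t g) ^ 2 := hinv.deriv
  have hnt : nn N g t = (q0 (rad N) (rX t g))⁻¹ := by rw [hq0, inv_inv]
  have hρpos : 0 < q0 (rad N) (rX t g) := by
    rw [hq0]
    exact inv_pos.2 hNpos
  unfold plS ln
  rw [hd, hnt]
  generalize q0 (rad N) (rX t g) = ρ at *
  have e1 : ρ⁻¹ ^ 2 + (-ρ' / ρ ^ 2) ^ 2 = (ρ ^ 2 + ρ' ^ 2) * ((ρ ^ 2)⁻¹) ^ 2 := by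
    field_simp
  rw [e1, Real.sqrt_mul (by positivity), Real.sqrt_sq (by positivity), inv_pow]
  field_simp

end Pool.Agent.Helper584.PG
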