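import Pool.Agent.Helper584.PL.Defs

set_option autoImplicit false

open MeasureTheory Set Filter Topology

noncomputable section

namespace Pool.Agent.Helper584.PG



theorem approx1_ln (η a b : ℝ) (hη : 0 ≤ η) (hη4 : η ≤ 1 / 4) (ha : |a - 1| ≤ η) (hb : |b| ≤ η) :
    3 / 4 ≤ ln a b ∧ |a - ln a b| ≤ η ∧ |ln a b - 1| ≤ 2 * η := by
  obtain ⟨ha1, ha2⟩ := abs_le.1 ha
  have ha0 : 0 ≤ a := by linarith
  have h1 : a ≤ ln a b := by
    unfold ln
    apply Real.le_sqrt_of_sq_le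
    nlinarith [sq_nonneg b]
  have h2 : ln a b ≤ a + |b| := by
    unfold ln
    rw [Real.sqrt_le_left (by positivity)]
    nlinarith [sq_abs b, abs_nonneg b, mul_nonneg ha0 (abs_nonneg b)]
  refine ⟨by linarith, ?_, ?_⟩
  · rw [abs_le]; constructor <;> linarith
  · rw [abs_le]; constructor <;> linarith

theorem approx1_div (X D c : ℝ) (hD : 1 ≤ c * D) (hD0 : 0 < D) : |X / D| ≤ c * |X| := by
  rw [abs_div, abs_of_pos hD0, div_le_iff₀ hD0]
  nlinarith [abs_nonneg X]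

theorem approx1 (L η : ℝ) (hL : 0 ≤ L) (hη : 0 ≤ η) (hη4 : η ≤ 1 / 4)
    (a1 b1 c1 a2 b2 c2 : ℝ) (ha1 : |a1 - 1| ≤ η) (ha2 : |a2 - 1| ≤ η)
    (hb1 : |b1| ≤ η) (hb2 : |b2| ≤ η) (hc1 : |c1| ≤ L) (hc2 : |c2| ≤ L) :
    |ph a1 b1 c1 a2 b2 c2 - (1 - (c1 + c2) / 2)| ≤ 40 * (1 + L) * η := by
  obtain ⟨s1, t1, r1⟩ := approx1_ln η a1 b1 hη hη4 ha1 hb1
  obtain ⟨s2, t2, r2⟩ := approx1_ln η a2 b2 hη hη4 ha2 hb2
  unfold ph
  set S1 := ln a1 b1 with hS1
  set S2 := ln a2 b2 with hS2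
  have hS10 : 0 < S1 := by linarith
  have hS20 : 0 < S2 := by linarith
  have hSg : 0 < S1 + S2 := by linarith
  have e : (a1 + a2) / (S1 + S2) - (c1 + c2) / (S1 + S2) +
      (b1 + b2) * ((a1 * b1 + b1 * c1) / S1 + (a2 * b2 + b2 * c2) / S2) / (S1 + S2) ^ 2 -
      (1 - (c1 + c2) / 2) =
      (a1 + a2 - (S1 + S2)) / (S1 + S2) + ((c1 + c2) * (S1 + S2 - 2)) / (2 * (S1 + S2)) +
      (b1 + b2) * ((a1 * b1 + b1 * c1) / S1 + (a2 * b2 + b2 * c2) / S2) / (S1 + S2) ^ 2 := by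
    field_simp
    ring
  rw [e]
  have k1 : |(a1 + a2 - (S1 + S2)) / (S1 + S2)| ≤ 2 * η := by
    have h1 := approx1_div (a1 + a2 - (S1 + S2)) (S1 + S2) 1 (by linarith) hSg
    have h2 : |a1 + a2 - (S1 + S2)| ≤ 2 * η := by
      rw [abs_le] at t1 t2 ⊢
      constructor <;> linarith [t1.1, t1.2, t2.1, t2.2]
    linarith
  have hcc : |c1 + c2| ≤ 2 * L := by
    rw [abs_le] at hc1 hc2 ⊢
    constructor <;> linarith [hc1.1, hc1.2, hc2.1, hc2.2]
  have k2 : |((c1 + c2) * (S1 + S2 - 2)) / (2 * (S1 + S2))| ≤ 8 * L * η := by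
    have h1 := approx1_div ((c1 + c2) * (S1 + S2 - 2)) (2 * (S1 + S2)) 1 (by linarith) (by linarith)
    have h2 : |S1 + S2 - 2| ≤ 4 * η := by
      rw [abs_le] at r1 r2 ⊢
      constructor <;> linarith [r1.1, r1.2, r2.1, r2.2]
    have h3 : |(c1 + c2) * (S1 + S2 - 2)| ≤ (2 * L) * (4 * η) := by
      rw [abs_mul]
      exact mul_le_mul hcc h2 (abs_nonneg _) (by positivity)
    linarith
  have kY : ∀ a b c S : ℝ, |a - 1| ≤ η → |b| ≤ η → |c| ≤ L → 3 / 4 ≤ S → 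
      |(a * b + b * c) / S| ≤ η * (5 / 2 + 2 * L) := by
    intro a b c S ha hb hc hS
    have h1 := approx1_div (a * b + b * c) S 2 (by linarith) (by linarith)
    have h2 : |a + c| ≤ 5 / 4 + L := by
      rw [abs_le] at ha hc ⊢
      constructor <;> linarith [ha.1, ha.2, hc.1, hc.2]
    have h3 : |a * b + b * c| ≤ η * (5 / 4 + L) := by
      have : a * b + b * c = b * (a + c) := by ring
      rw [this, abs_mul]
      exact mul_le_mul hb h2 (abs_nonneg _) hη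
    linarith
  have y1 := kY a1 b1 c1 S1 ha1 hb1 hc1 s1
  have y2 := kY a2 b2 c2 S2 ha2 hb2 hc2 s2
  have k3 : |(b1 + b2) * ((a1 * b1 + b1 * c1) / S1 + (a2 * b2 + b2 * c2) / S2) / (S1 + S2) ^ 2| ≤
      2 * η * (η * (5 + 4 * L)) := by
    have h1 := approx1_div ((b1 + b2) * ((a1 * b1 + b1 * c1) / S1 + (a2 * b2 + b2 * c2) / S2))
      ((S1 + S2) ^ 2) 1 (by nlinarith) (by positivity)
    have h2 : |b1 + b2| ≤ 2 * η := by
      rw [abs_le] at hb1 hb2 ⊢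
      constructor <;> linarith [hb1.1, hb1.2, hb2.1, hb2.2]
    have h3 : |(a1 * b1 + b1 * c1) / S1 + (a2 * b2 + b2 * c2) / S2| ≤ η * (5 + 4 * L) := by
      refine (abs_add_le _ _).trans ?_
      linarith
    have h4 : |(b1 + b2) * ((a1 * b1 + b1 * c1) / S1 + (a2 * b2 + b2 * c2) / S2)| ≤
        2 * η * (η * (5 + 4 * L)) := by
      rw [abs_mul]
      exact mul_le_mul h2 h3 (abs_nonneg _) (by positivity)
    linarith
  have h5 : 2 * η * (η * (5 + 4 * L)) ≤ (1 / 2) * (η * (5 + 4 * L)) :=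
    mul_le_mul_of_nonneg_right (by linarith) (by positivity)
  have h6 : 0 ≤ L * η := by positivity
  refine (abs_add_three _ _ _).trans ?_
  nlinarith

end Pool.Agent.Helper584.PG
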