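import Pool.Agent.Helper584.PL.Defs

set_option autoImplicit false

open MeasureTheory Set Filter Topology

noncomputable section

namespace Pool.Agent.Helper584.PG


theorem ap_mul (x y A B : ℝ) (hx : |x| ≤ A) (hy : |y| ≤ B) : |x * y| ≤ A * B := by
  rw [abs_mul]
  exact mul_le_mul hx hy (abs_nonneg _) ((abs_nonneg _).trans hx)

theorem ap_add (x y A B : ℝ) (hx : |x| ≤ A) (hy : |y| ≤ B) : |x + y| ≤ A + B :=
  (abs_add_le x y).trans (add_le_add hx hy)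

theorem ap_div (x S k s : ℝ) (hs : 0 < s) (hx : |x| ≤ k) (hS : s ≤ S) : |x / S| ≤ k / s := by
  have hS0 : 0 < S := lt_of_lt_of_le hs hS
  rw [abs_div, abs_of_pos hS0]
  exact div_le_div₀ ((abs_nonneg _).trans hx) hx hs hS

theorem ap_ln (η a b : ℝ) (hη : 0 ≤ η) (hη4 : η ≤ 1 / 4) (ha : |a - 1| ≤ η) (hb : |b| ≤ η) :
    3 / 4 ≤ ln a b ∧ |ln a b - 1| ≤ 2 * η := by
  obtain ⟨h1, h2⟩ := abs_le.1 ha
  have ha0 : 0 < a := by linarith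
  have h3 : a ≤ ln a b := by
    unfold ln
    apply Real.le_sqrt_of_sq_le
    nlinarith [sq_nonneg b]
  have h4 : ln a b ≤ a + |b| := by
    unfold ln
    rw [Real.sqrt_le_left (by positivity)]
    have := sq_abs b
    nlinarith [mul_nonneg ha0.le (abs_nonneg b)]
  refine ⟨by linarith, ?_⟩
  rw [abs_le]
  constructor <;> linarith

theorem approx2 (L η : ℝ) (hL : 0 ≤ L) (hη : 0 ≤ η) (hη4 : η ≤ 1 / 4)
    (a1 b1 B1 c1 C1 a2 b2 B2 c2 C2 : ℝ) (ha1 : |a1 - 1| ≤ η) (ha2 : |a2 - 1| ≤ η)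
    (hb1 : |b1| ≤ η) (hb2 : |b2| ≤ η) (hB1 : |B1| ≤ η) (hB2 : |B2| ≤ η)
    (hc1 : |c1| ≤ L) (hc2 : |c2| ≤ L) (hC1 : |C1| ≤ L) (hC2 : |C2| ≤ L) :
    |vph a1 b1 B1 c1 C1 a2 b2 B2 c2 C2 + (C1 + C2)| ≤ 40 * (1 + L) * η := by
  obtain ⟨hS1, hS1'⟩ := ap_ln η a1 b1 hη hη4 ha1 hb1
  obtain ⟨hS2, hS2'⟩ := ap_ln η a2 b2 hη hη4 ha2 hb2
  unfold vph
  obtain ⟨S1, hS1e⟩ : ∃ S1, S1 = ln a1 b1 := ⟨_, rfl⟩
  obtain ⟨S2, hS2e⟩ : ∃ S2, S2 = ln a2 b2 := ⟨_, rfl⟩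
  rw [← hS1e] at hS1 hS1' ⊢
  rw [← hS2e] at hS2 hS2' ⊢
  obtain ⟨Sg, hSg⟩ : ∃ Sg, Sg = S1 + S2 := ⟨_, rfl⟩
  rw [← hSg]
  have hSg1 : 3 / 2 ≤ Sg := by linarith
  have hSg2 : |Sg - 2| ≤ 4 * η := by
    have := ap_add _ _ _ _ hS1' hS2'
    rw [hSg]
    calc |S1 + S2 - 2| = |(S1 - 1) + (S2 - 1)| := by congr 1; ring
      _ ≤ 2 * η + 2 * η := this
      _ = 4 * η := by ring
  have hSgsq : 9 / 4 ≤ Sg ^ 2 := by nlinarith
  have hSgcu : 27 / 8 ≤ Sg ^ 3 := by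
    calc (27 / 8 : ℝ) = (3 / 2) ^ 3 := by norm_num
      _ ≤ Sg ^ 3 := pow_le_pow_left₀ (by norm_num) hSg1 3
  have hSg0 : Sg ≠ 0 := by linarith
  have hη2 : η * η ≤ η / 4 := by nlinarith
  have hLη : 0 ≤ L * η := mul_nonneg hL hη
  have haa1 : |a1| ≤ 5 / 4 := by
    obtain ⟨h1, h2⟩ := abs_le.1 ha1
    rw [abs_le]; constructor <;> linarith
  have haa2 : |a2| ≤ 5 / 4 := by
    obtain ⟨h1, h2⟩ := abs_le.1 ha2
    rw [abs_le]; constructor <;> linarith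
  -- W
  obtain ⟨W, hW⟩ : ∃ W, W = b1 * B1 / S1 + b2 * B2 / S2 := ⟨_, rfl⟩
  have hw1 : |b1 * B1 / S1| ≤ η / 3 := by
    refine (ap_div _ _ _ _ (by norm_num) (ap_mul _ _ _ _ hb1 hB1) hS1).trans ?_
    linarith
  have hw2 : |b2 * B2 / S2| ≤ η / 3 := by
    refine (ap_div _ _ _ _ (by norm_num) (ap_mul _ _ _ _ hb2 hB2) hS2).trans ?_
    linarith
  have hWb : |W| ≤ 2 / 3 * η := by
    rw [hW]
    refine (ap_add _ _ _ _ hw1 hw2).trans (le_of_eq (by ring))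
  -- P
  obtain ⟨P, hP⟩ : ∃ P, P = (a1 * b1 + b1 * c1) / S1 + (a2 * b2 + b2 * c2) / S2 := ⟨_, rfl⟩
  have hp1n : |a1 * b1 + b1 * c1| ≤ 5 / 4 * η + η * L :=
    ap_add _ _ _ _ (ap_mul _ _ _ _ haa1 hb1) (ap_mul _ _ _ _ hb1 hc1)
  have hp2n : |a2 * b2 + b2 * c2| ≤ 5 / 4 * η + η * L :=
    ap_add _ _ _ _ (ap_mul _ _ _ _ haa2 hb2) (ap_mul _ _ _ _ hb2 hc2)
  have hPb : |P| ≤ 10 / 3 * ((1 + L) * η) := by
    rw [hP]
    refine (ap_add _ _ _ _ (ap_div _ _ _ _ (by norm_num) hp1n hS1)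
      (ap_div _ _ _ _ (by norm_num) hp2n hS2)).trans ?_
    nlinarith
  -- Z
  obtain ⟨Z, hZ⟩ : ∃ Z, Z = ((a1 * B1 + B1 * c1 + 2 * b1 * C1) / S1 -
        (a1 * b1 + b1 * c1) * (b1 * B1 / S1) / S1 ^ 2) +
      ((a2 * B2 + B2 * c2 + 2 * b2 * C2) / S2 -
        (a2 * b2 + b2 * c2) * (b2 * B2 / S2) / S2 ^ 2) := ⟨_, rfl⟩
  have hS1sq : 9 / 16 ≤ S1 ^ 2 := by nlinarith
  have hS2sq : 9 / 16 ≤ S2 ^ 2 := by nlinarith
  have hq : ∀ a b B c C S : ℝ, |a| ≤ 5 / 4 → |b| ≤ η → |B| ≤ η → |c| ≤ L → |C| ≤ L → 3 / 4 ≤ S →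
      |(a * B + B * c + 2 * b * C) / S| ≤ 4 * ((1 + L) * η) := by
    intro a b B c C S ha hb hB hc hC hS
    have h1 : |a * B + B * c + 2 * b * C| ≤ 5 / 4 * η + η * L + 2 * η * L := by
      refine ap_add _ _ _ _ (ap_add _ _ _ _ (ap_mul _ _ _ _ ha hB) (ap_mul _ _ _ _ hB hc)) ?_
      refine ap_mul _ _ _ _ ?_ hC
      refine ap_mul _ _ _ _ ?_ hb
      norm_num
    refine (ap_div _ _ _ _ (by norm_num) h1 hS).trans ?_
    nlinarith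
  have hr : ∀ x w S : ℝ, |x| ≤ 5 / 4 * η + η * L → |w| ≤ η / 3 → 9 / 16 ≤ S →
      |x * w / S| ≤ (1 + L) * η := by
    intro x w S hx hw hS
    refine (ap_div _ _ _ _ (by norm_num) (ap_mul _ _ _ _ hx hw) hS).trans ?_
    have h1 : (5 / 4 * η + η * L) * (η / 3) ≤ (5 / 4 * η + η * L) * (1 / 12) := by
      apply mul_le_mul_of_nonneg_left (by linarith)
      nlinarith
    rw [div_le_iff₀ (by norm_num)]
    nlinarith
  have hZb : |Z| ≤ 10 * ((1 + L) * η) := by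
    rw [hZ]
    have h1 := hq a1 b1 B1 c1 C1 S1 haa1 hb1 hB1 hc1 hC1 hS1
    have h2 := hq a2 b2 B2 c2 C2 S2 haa2 hb2 hB2 hc2 hC2 hS2
    have h3 := hr _ _ _ hp1n hw1 hS1sq
    have h4 := hr _ _ _ hp2n hw2 hS2sq
    rw [abs_le] at h1 h2 h3 h4 ⊢
    constructor <;> linarith [h1.1, h1.2, h2.1, h2.2, h3.1, h3.2, h4.1, h4.2]
  -- the total
  have hmain : (-(a1 + a2) * W / Sg ^ 2 - (2 * (C1 + C2) / Sg - (c1 + c2) * W / Sg ^ 2) +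
      (B1 + B2) * P / Sg ^ 2 + (b1 + b2) * Z / Sg ^ 2 - 2 * (b1 + b2) * P * W / Sg ^ 3) +
      (C1 + C2) = (C1 + C2) * (Sg - 2) / Sg + -(a1 + a2) * W / Sg ^ 2 + (c1 + c2) * W / Sg ^ 2 +
      (B1 + B2) * P / Sg ^ 2 + (b1 + b2) * Z / Sg ^ 2 - 2 * (b1 + b2) * P * W / Sg ^ 3 := by
    field_simp
    ring
  rw [← hW, ← hP, ← hZ, hmain]
  have hK : 0 ≤ (1 + L) * η := mul_nonneg (by linarith) hη
  have e1 : |(C1 + C2) * (Sg - 2) / Sg| ≤ 16 / 3 * (L * η) := by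
    refine (ap_div _ _ _ _ (by norm_num) (ap_mul _ _ _ _ (ap_add _ _ _ _ hC1 hC2) hSg2)
      hSg1).trans (le_of_eq (by ring))
  have e2 : |-(a1 + a2) * W / Sg ^ 2| ≤ η := by
    have h1 : |-(a1 + a2)| ≤ 5 / 4 + 5 / 4 := by
      rw [abs_neg]
      exact ap_add _ _ _ _ haa1 haa2
    refine (ap_div _ _ _ _ (by norm_num) (ap_mul _ _ _ _ h1 hWb) hSgsq).trans ?_
    linarith
  have e3 : |(c1 + c2) * W / Sg ^ 2| ≤ L * η := by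
    refine (ap_div _ _ _ _ (by norm_num) (ap_mul _ _ _ _ (ap_add _ _ _ _ hc1 hc2) hWb)
      hSgsq).trans ?_
    nlinarith
  have e4 : |(B1 + B2) * P / Sg ^ 2| ≤ (1 + L) * η := by
    refine (ap_div _ _ _ _ (by norm_num) (ap_mul _ _ _ _ (ap_add _ _ _ _ hB1 hB2) hPb)
      hSgsq).trans ?_
    have h1 : (η + η) * (10 / 3 * ((1 + L) * η)) ≤ (1 / 2) * (10 / 3 * ((1 + L) * η)) :=
      mul_le_mul_of_nonneg_right (by linarith) (by linarith)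
    linarith
  have e5 : |(b1 + b2) * Z / Sg ^ 2| ≤ 3 * ((1 + L) * η) := by
    refine (ap_div _ _ _ _ (by norm_num) (ap_mul _ _ _ _ (ap_add _ _ _ _ hb1 hb2) hZb)
      hSgsq).trans ?_
    have h1 : (η + η) * (10 * ((1 + L) * η)) ≤ (1 / 2) * (10 * ((1 + L) * η)) :=
      mul_le_mul_of_nonneg_right (by linarith) (by linarith)
    linarith
  have e6 : |2 * (b1 + b2) * P * W / Sg ^ 3| ≤ (1 + L) * η := by
    have h1 : |2 * (b1 + b2)| ≤ 2 * (η + η) := by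
      refine ap_mul _ _ _ _ ?_ (ap_add _ _ _ _ hb1 hb2)
      norm_num
    refine (ap_div _ _ _ _ (by norm_num) (ap_mul _ _ _ _ (ap_mul _ _ _ _ h1 hPb) hWb)
      hSgcu).trans ?_
    have h2 : 2 * (η + η) * (10 / 3 * ((1 + L) * η)) ≤ 1 * (10 / 3 * ((1 + L) * η)) :=
      mul_le_mul_of_nonneg_right (by linarith) (by linarith)
    have h3 : 2 * (η + η) * (10 / 3 * ((1 + L) * η)) * (2 / 3 * η) ≤
        1 * (10 / 3 * ((1 + L) * η)) * (2 / 3 * (1 / 4)) :=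
      mul_le_mul h2 (by linarith) (by linarith) (by linarith)
    linarith
  rw [abs_le] at e1 e2 e3 e4 e5 e6 ⊢
  have hexp : (1 + L) * η = η + L * η := by ring
  have hexp2 : 40 * (1 + L) * η = 40 * (η + L * η) := by ring
  rw [hexp] at e4 e5 e6
  rw [hexp2]
  constructor <;> linarith [e1.1, e1.2, e2.1, e2.2, e3.1, e3.2, e4.1, e4.2, e5.1, e5.2, e6.1, e6.2]

end Pool.Agent.Helper584.PG
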