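import Pool.Agent.Helper584.PL.Defs
import Pool.Agent.Helper584.PL.P_fr_basic

set_option autoImplicit false

open MeasureTheory Set Filter Topology

noncomputable section

namespace Pool.Agent.Helper584.PG



theorem calcV (R : E → ℝ) (hR : ContDiffOn ℝ 2 R {0}ᶜ) (g : T) (hg : g ∈ Fr) (t : ℝ) :
    HasDerivAt (fun s => q0 R (rV s g)) 0 t ∧
    HasDerivAt (fun s => q1 R (rV s g)) (q1' R (rV t g)) t ∧
    HasDerivAt (fun s => q2 R (rV s g)) (2 * q2' R (rV t g)) t := by
  have hx0 : g.1 ≠ 0 := by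
    intro h0
    have := hg.1
    rw [h0, norm_zero] at this
    exact zero_ne_one this
  have hCD : ContDiffAt ℝ 2 R g.1 :=
    hR.contDiffAt (isOpen_compl_singleton.mem_nhds hx0)
  have hsymm : IsSymmSndFDerivAt ℝ R g.1 := by
    apply hCD.isSymmSndFDerivAt
    simp [minSmoothness_of_isRCLikeNormedField]
  have hv : HasDerivAt (fun s => Real.cos s • g.2.1 + Real.sin s • g.2.2)
      ((-Real.sin t) • g.2.1 + Real.cos t • g.2.2) t :=
    ((Real.hasDerivAt_cos t).smul_const g.2.1).add ((Real.hasDerivAt_sin t).smul_const g.2.2)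
  refine ⟨?_, ?_, ?_⟩
  · exact hasDerivAt_const t (R g.1)
  · exact (fderiv ℝ R g.1).hasFDerivAt.comp_hasDerivAt t hv
  · have hB := (fderiv ℝ (fderiv ℝ R) g.1).hasFDerivAt.comp_hasDerivAt t hv
    have hBB := (hB.clm_apply hv).sub_const (fderiv ℝ R g.1 g.1)
    refine hBB.congr_deriv ?_
    have h2 := hsymm ((-Real.sin t) • g.2.1 + Real.cos t • g.2.2)
      (Real.cos t • g.2.1 + Real.sin t • g.2.2)
    show fderiv ℝ (fderiv ℝ R) g.1 ((-Real.sin t) • g.2.1 + Real.cos t • g.2.2)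
        (Real.cos t • g.2.1 + Real.sin t • g.2.2) +
      fderiv ℝ (fderiv ℝ R) g.1 (Real.cos t • g.2.1 + Real.sin t • g.2.2)
        ((-Real.sin t) • g.2.1 + Real.cos t • g.2.2) =
      2 * (fderiv ℝ (fderiv ℝ R) g.1 (Real.cos t • g.2.1 + Real.sin t • g.2.2)
        ((-Real.sin t) • g.2.1 + Real.cos t • g.2.2))
    rw [h2]; ring

end Pool.Agent.Helper584.PG
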