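import Pool.Agent.Helper584.PL.Defs

set_option autoImplicit false

open MeasureTheory Set Filter Topology

noncomputable section

namespace Pool.Agent.Helper584.PG



theorem cont_q (R : E → ℝ) (hR : ContDiffOn ℝ 2 R {0}ᶜ) :
    ContinuousOn (q0 R) Fr ∧ ContinuousOn (q1 R) Fr ∧ ContinuousOn (q1' R) Fr ∧
    ContinuousOn (q2 R) Fr ∧ ContinuousOn (q2' R) Fr := by
  have ho : IsOpen ({0}ᶜ : Set E) := isOpen_compl_singleton
  have h0 : ContinuousOn R {0}ᶜ := hR.continuousOn
  have h1 : ContinuousOn (fderiv ℝ R) {0}ᶜ :=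
    hR.continuousOn_fderiv_of_isOpen ho (by norm_num)
  have h2 : ContDiffOn ℝ 1 (fderiv ℝ R) {0}ᶜ := hR.fderiv_of_isOpen ho (by norm_num)
  have h3 : ContinuousOn (fderiv ℝ (fderiv ℝ R)) {0}ᶜ :=
    h2.continuousOn_fderiv_of_isOpen ho (by norm_num)
  have hm : MapsTo (fun g : T => g.1) Fr ({0}ᶜ : Set E) := by
    intro g hg hg0
    have h4 : ‖g.1‖ = 1 := hg.1
    have h5 : g.1 = 0 := hg0
    rw [h5, norm_zero] at h4
    exact zero_ne_one h4
  have c1 : ContinuousOn (fun g : T => g.1) Fr := continuous_fst.continuousOn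
  have c2 : ContinuousOn (fun g : T => g.2.1) Fr :=
    (continuous_fst.comp continuous_snd).continuousOn
  have c3 : ContinuousOn (fun g : T => g.2.2) Fr :=
    (continuous_snd.comp continuous_snd).continuousOn
  have d1 : ContinuousOn (fun g : T => fderiv ℝ R g.1) Fr := h1.comp c1 hm
  have d2 : ContinuousOn (fun g : T => fderiv ℝ (fderiv ℝ R) g.1) Fr := h3.comp c1 hm
  refine ⟨h0.comp c1 hm, d1.clm_apply c2, d1.clm_apply c3, ?_, (d2.clm_apply c2).clm_apply c3⟩
  exact ((d2.clm_apply c2).clm_apply c2).sub (d1.clm_apply c1)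

end Pool.Agent.Helper584.PG
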