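import Pool.Agent.Helper584.PL.Defs
import Pool.Agent.Helper584.PL.P_fr_basic
import Pool.Agent.Helper584.PL.P_cont_q

set_option autoImplicit false

open MeasureTheory Set Filter Topology

noncomputable section

namespace Pool.Agent.Helper584.PG



theorem cF_ph {s : Set T} {a1 b1 c1 a2 b2 c2 : T → ℝ} (ha1 : ContinuousOn a1 s)
    (hb1 : ContinuousOn b1 s) (hc1 : ContinuousOn c1 s) (ha2 : ContinuousOn a2 s)
    (hb2 : ContinuousOn b2 s) (hc2 : ContinuousOn c2 s)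
    (hl1 : ContinuousOn (fun g => ln (a1 g) (b1 g)) s)
    (hl2 : ContinuousOn (fun g => ln (a2 g) (b2 g)) s)
    (hp1 : ∀ g ∈ s, ln (a1 g) (b1 g) ≠ 0) (hp2 : ∀ g ∈ s, ln (a2 g) (b2 g) ≠ 0)
    (hp : ∀ g ∈ s, ln (a1 g) (b1 g) + ln (a2 g) (b2 g) ≠ 0) :
    ContinuousOn (fun g => ph (a1 g) (b1 g) (c1 g) (a2 g) (b2 g) (c2 g)) s := by
  unfold ph
  have hL := hl1.add hl2
  have hpp : ∀ g ∈ s, (ln (a1 g) (b1 g) + ln (a2 g) (b2 g)) ^ 2 ≠ 0 :=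
    fun g hg => pow_ne_zero _ (hp g hg)
  refine ((ha1.add ha2).div hL hp |>.sub ((hc1.add hc2).div hL hp)).add ?_
  refine ContinuousOn.div (ContinuousOn.mul (hb1.add hb2) ?_) (hL.pow 2) hpp
  exact (((ha1.mul hb1).add (hb1.mul hc1)).div hl1 hp1).add
    (((ha2.mul hb2).add (hb2.mul hc2)).div hl2 hp2)

theorem cF_vph {s : Set T} {a1 b1 B1 c1 C1 a2 b2 B2 c2 C2 : T → ℝ} (ha1 : ContinuousOn a1 s)
    (hb1 : ContinuousOn b1 s) (hB1 : ContinuousOn B1 s) (hc1 : ContinuousOn c1 s)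
    (hC1 : ContinuousOn C1 s) (ha2 : ContinuousOn a2 s)
    (hb2 : ContinuousOn b2 s) (hB2 : ContinuousOn B2 s) (hc2 : ContinuousOn c2 s)
    (hC2 : ContinuousOn C2 s)
    (hl1 : ContinuousOn (fun g => ln (a1 g) (b1 g)) s)
    (hl2 : ContinuousOn (fun g => ln (a2 g) (b2 g)) s)
    (hp1 : ∀ g ∈ s, ln (a1 g) (b1 g) ≠ 0) (hp2 : ∀ g ∈ s, ln (a2 g) (b2 g) ≠ 0)
    (hp : ∀ g ∈ s, ln (a1 g) (b1 g) + ln (a2 g) (b2 g) ≠ 0) :
    ContinuousOn (fun g => vph (a1 g) (b1 g) (B1 g) (c1 g) (C1 g) (a2 g) (b2 g) (B2 g) (c2 g)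
      (C2 g)) s := by
  unfold vph
  have hL := hl1.add hl2
  have hpp : ∀ g ∈ s, (ln (a1 g) (b1 g) + ln (a2 g) (b2 g)) ^ 2 ≠ 0 :=
    fun g hg => pow_ne_zero _ (hp g hg)
  have hppp : ∀ g ∈ s, (ln (a1 g) (b1 g) + ln (a2 g) (b2 g)) ^ 3 ≠ 0 :=
    fun g hg => pow_ne_zero _ (hp g hg)
  have hp12 : ∀ g ∈ s, (ln (a1 g) (b1 g)) ^ 2 ≠ 0 := fun g hg => pow_ne_zero _ (hp1 g hg)
  have hp22 : ∀ g ∈ s, (ln (a2 g) (b2 g)) ^ 2 ≠ 0 := fun g hg => pow_ne_zero _ (hp2 g hg)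
  have hbB : ContinuousOn (fun g => b1 g * B1 g / ln (a1 g) (b1 g) +
      b2 g * B2 g / ln (a2 g) (b2 g)) s :=
    ((hb1.mul hB1).div hl1 hp1).add ((hb2.mul hB2).div hl2 hp2)
  have hac1 : ContinuousOn (fun g => a1 g * b1 g + b1 g * c1 g) s :=
    (ha1.mul hb1).add (hb1.mul hc1)
  have hac2 : ContinuousOn (fun g => a2 g * b2 g + b2 g * c2 g) s :=
    (ha2.mul hb2).add (hb2.mul hc2)
  have hac : ContinuousOn (fun g => (a1 g * b1 g + b1 g * c1 g) / ln (a1 g) (b1 g) +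
      (a2 g * b2 g + b2 g * c2 g) / ln (a2 g) (b2 g)) s :=
    (hac1.div hl1 hp1).add (hac2.div hl2 hp2)
  have t1 : ContinuousOn (fun g => -(a1 g + a2 g) * (b1 g * B1 g / ln (a1 g) (b1 g) +
      b2 g * B2 g / ln (a2 g) (b2 g)) / (ln (a1 g) (b1 g) + ln (a2 g) (b2 g)) ^ 2) s :=
    ((ha1.add ha2).neg.mul hbB).div (hL.pow 2) hpp
  have t2 : ContinuousOn (fun g => 2 * (C1 g + C2 g) / (ln (a1 g) (b1 g) + ln (a2 g) (b2 g)) -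
      (c1 g + c2 g) * (b1 g * B1 g / ln (a1 g) (b1 g) + b2 g * B2 g / ln (a2 g) (b2 g)) /
      (ln (a1 g) (b1 g) + ln (a2 g) (b2 g)) ^ 2) s :=
    (((continuousOn_const).mul (hC1.add hC2)).div hL hp).sub
      (((hc1.add hc2).mul hbB).div (hL.pow 2) hpp)
  have t3 : ContinuousOn (fun g => (B1 g + B2 g) * ((a1 g * b1 g + b1 g * c1 g) /
      ln (a1 g) (b1 g) + (a2 g * b2 g + b2 g * c2 g) / ln (a2 g) (b2 g)) /
      (ln (a1 g) (b1 g) + ln (a2 g) (b2 g)) ^ 2) s :=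
    ((hB1.add hB2).mul hac).div (hL.pow 2) hpp
  have u1 : ContinuousOn (fun g => (a1 g * B1 g + B1 g * c1 g + 2 * b1 g * C1 g) /
      ln (a1 g) (b1 g) - (a1 g * b1 g + b1 g * c1 g) * (b1 g * B1 g / ln (a1 g) (b1 g)) /
      (ln (a1 g) (b1 g)) ^ 2) s :=
    ((((ha1.mul hB1).add (hB1.mul hc1)).add ((continuousOn_const.mul hb1).mul hC1)).div hl1
      hp1).sub ((hac1.mul ((hb1.mul hB1).div hl1 hp1)).div (hl1.pow 2) hp12)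
  have u2 : ContinuousOn (fun g => (a2 g * B2 g + B2 g * c2 g + 2 * b2 g * C2 g) /
      ln (a2 g) (b2 g) - (a2 g * b2 g + b2 g * c2 g) * (b2 g * B2 g / ln (a2 g) (b2 g)) /
      (ln (a2 g) (b2 g)) ^ 2) s :=
    ((((ha2.mul hB2).add (hB2.mul hc2)).add ((continuousOn_const.mul hb2).mul hC2)).div hl2
      hp2).sub ((hac2.mul ((hb2.mul hB2).div hl2 hp2)).div (hl2.pow 2) hp22)
  have t4 := ((hb1.add hb2).mul (u1.add u2)).div (hL.pow 2) hpp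
  have t5 := ((((continuousOn_const (c := (2 : ℝ))).mul (hb1.add hb2)).mul hac).mul hbB).div
    (hL.pow 3) hppp
  exact ((((t1.sub t2).add t3).add t4).sub t5)

theorem cF_ln {s : Set T} {a b : T → ℝ} (ha : ContinuousOn a s) (hb : ContinuousOn b s) :
    ContinuousOn (fun g => ln (a g) (b g)) s := by
  unfold ln
  exact ((ha.pow 2).add (hb.pow 2)).sqrt

theorem cF_ln_pos (a b : ℝ) (ha : 0 < a) : 0 < ln a b := by
  unfold ln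
  apply Real.sqrt_pos.mpr
  positivity

theorem cF_bd {F : T → ℝ} (hF : ContinuousOn F Fr) : ∃ B : ℝ, ∀ g ∈ Fr, |F g| ≤ B := by
  obtain ⟨B, hB⟩ := fr_basic.1.exists_bound_of_continuousOn hF
  exact ⟨B, fun g hg => by simpa only [Real.norm_eq_abs] using hB g hg⟩

theorem cont_F (R1 R2 : E → ℝ) (h1 : ContDiffOn ℝ 2 R1 {0}ᶜ) (h2 : ContDiffOn ℝ 2 R2 {0}ᶜ)
    (p1 : ∀ x, x ≠ 0 → 0 < R1 x) (p2 : ∀ x, x ≠ 0 → 0 < R2 x) :
    ContinuousOn (PH R1 R2) Fr ∧ ContinuousOn (VPH R1 R2) Fr ∧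
    ContinuousOn (FF R1 R2) Fr ∧ ContinuousOn (VFF R1 R2) Fr ∧
    ∃ B : ℝ, ∀ g ∈ Fr, |PH R1 R2 g| ≤ B ∧ |VPH R1 R2 g| ≤ B ∧ |FF R1 R2 g| ≤ B ∧
      |VFF R1 R2 g| ≤ B := by
  obtain ⟨a1, b1, B1, c1, C1⟩ := cont_q R1 h1
  obtain ⟨a2, b2, B2, c2, C2⟩ := cont_q R2 h2
  have hne : ∀ g ∈ Fr, g.1 ≠ 0 := by
    intro g hg h0
    have := hg.1
    rw [h0, norm_zero] at this
    exact zero_ne_one this
  have hq1 : ∀ g ∈ Fr, 0 < ln (q0 R1 g) (q1 R1 g) := fun g hg => cF_ln_pos _ _ (p1 _ (hne g hg))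
  have hq2 : ∀ g ∈ Fr, 0 < ln (q0 R2 g) (q1 R2 g) := fun g hg => cF_ln_pos _ _ (p2 _ (hne g hg))
  have hq : ∀ g ∈ Fr, ln (q0 R1 g) (q1 R1 g) + ln (q0 R2 g) (q1 R2 g) ≠ 0 :=
    fun g hg => (add_pos (hq1 g hg) (hq2 g hg)).ne'
  have hP : ContinuousOn (PH R1 R2) Fr :=
    cF_ph a1 b1 c1 a2 b2 c2 (cF_ln a1 b1) (cF_ln a2 b2) (fun g hg => (hq1 g hg).ne')
      (fun g hg => (hq2 g hg).ne') hq
  have hV : ContinuousOn (VPH R1 R2) Fr :=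
    cF_vph a1 b1 B1 c1 C1 a2 b2 B2 c2 C2 (cF_ln a1 b1) (cF_ln a2 b2) (fun g hg => (hq1 g hg).ne')
      (fun g hg => (hq2 g hg).ne') hq
  have hF : ContinuousOn (FF R1 R2) Fr := (a1.sub a2).mul hP
  have hW : ContinuousOn (VFF R1 R2) Fr := (a1.sub a2).mul hV
  obtain ⟨k1, hk1⟩ := cF_bd hP
  obtain ⟨k2, hk2⟩ := cF_bd hV
  obtain ⟨k3, hk3⟩ := cF_bd hF
  obtain ⟨k4, hk4⟩ := cF_bd hW
  refine ⟨hP, hV, hF, hW, max (max k1 k2) (max k3 k4), fun g hg => ⟨?_, ?_, ?_, ?_⟩⟩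
  · exact (hk1 g hg).trans (le_max_of_le_left (le_max_left _ _))
  · exact (hk2 g hg).trans (le_max_of_le_left (le_max_right _ _))
  · exact (hk3 g hg).trans (le_max_of_le_right (le_max_left _ _))
  · exact (hk4 g hg).trans (le_max_of_le_right (le_max_right _ _))

end Pool.Agent.Helper584.PG
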