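import Pool.Agent.Helper584.PL.Defs

set_option autoImplicit false

open MeasureTheory Set Filter Topology

noncomputable section

namespace Pool.Agent.Helper584.PG



theorem ln_pos' (a b : ℝ) (ha : 0 < a) : 0 < ln a b := by
  unfold ln
  apply Real.sqrt_pos.mpr
  positivity

theorem hasDerivAt_ln (a : ℝ) (ha : 0 < a) (b : ℝ → ℝ) (B t : ℝ) (h : HasDerivAt b B t) :
    HasDerivAt (fun s => ln a (b s)) (b t * B / ln a (b t)) t := by
  have hl := ln_pos' a (b t) ha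
  have hne : a ^ 2 + (b t) ^ 2 ≠ 0 := by positivity
  have h1 : HasDerivAt (fun s => a ^ 2 + (b s) ^ 2) (2 * (b t) * B) t := by
    have := (h.pow 2).const_add (a ^ 2)
    refine this.congr_deriv ?_
    simp
  have h2 := h1.sqrt hne
  refine h2.congr_deriv ?_
  unfold ln
  have : Real.sqrt (a ^ 2 + (b t) ^ 2) ≠ 0 := by
    have := hl.ne'
    unfold ln at this
    exact this
  field_simp

theorem ph_V (a1 a2 : ℝ) (ha1 : 0 < a1) (ha2 : 0 < a2) (b1 c1 b2 c2 : ℝ → ℝ) (B1 C1 B2 C2 t : ℝ)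
    (h1 : HasDerivAt b1 B1 t) (h2 : HasDerivAt c1 (2 * C1) t)
    (h3 : HasDerivAt b2 B2 t) (h4 : HasDerivAt c2 (2 * C2) t) :
    HasDerivAt (fun s => ph a1 (b1 s) (c1 s) a2 (b2 s) (c2 s))
      (vph a1 (b1 t) B1 (c1 t) C1 a2 (b2 t) B2 (c2 t) C2) t := by
  have l1 := hasDerivAt_ln a1 ha1 b1 B1 t h1
  have l2 := hasDerivAt_ln a2 ha2 b2 B2 t h3
  have p1 := ln_pos' a1 (b1 t) ha1
  have p2 := ln_pos' a2 (b2 t) ha2
  have hS : HasDerivAt (fun s => ln a1 (b1 s) + ln a2 (b2 s))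
      (b1 t * B1 / ln a1 (b1 t) + b2 t * B2 / ln a2 (b2 t)) t := l1.add l2
  have hSne : ln a1 (b1 t) + ln a2 (b2 t) ≠ 0 := by positivity
  have k1 : HasDerivAt (fun s => (a1 * b1 s + b1 s * c1 s) / ln a1 (b1 s))
      (((a1 * B1 + (B1 * c1 t + b1 t * (2 * C1))) * ln a1 (b1 t) -
        (a1 * b1 t + b1 t * c1 t) * (b1 t * B1 / ln a1 (b1 t))) / (ln a1 (b1 t)) ^ 2) t :=
    (((h1.const_mul a1).add (h1.mul h2)).div l1 p1.ne')
  have k2 : HasDerivAt (fun s => (a2 * b2 s + b2 s * c2 s) / ln a2 (b2 s))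
      (((a2 * B2 + (B2 * c2 t + b2 t * (2 * C2))) * ln a2 (b2 t) -
        (a2 * b2 t + b2 t * c2 t) * (b2 t * B2 / ln a2 (b2 t))) / (ln a2 (b2 t)) ^ 2) t :=
    (((h3.const_mul a2).add (h3.mul h4)).div l2 p2.ne')
  have t1 := (hasDerivAt_const t (a1 + a2)).div hS hSne
  have t2 := (h2.add h4).div hS hSne
  have t3 := ((h1.add h3).mul (k1.add k2)).div (hS.pow 2) (pow_ne_zero 2 hSne)
  have tt := (t1.sub t2).add t3
  have e : (fun s => ph a1 (b1 s) (c1 s) a2 (b2 s) (c2 s)) =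
      (fun s => (a1 + a2) / (ln a1 (b1 s) + ln a2 (b2 s)) -
        (c1 s + c2 s) / (ln a1 (b1 s) + ln a2 (b2 s)) +
        (b1 s + b2 s) * ((a1 * b1 s + b1 s * c1 s) / ln a1 (b1 s) +
          (a2 * b2 s + b2 s * c2 s) / ln a2 (b2 s)) / (ln a1 (b1 s) + ln a2 (b2 s)) ^ 2) := by
    funext s
    rfl
  rw [e]
  refine tt.congr_deriv ?_
  simp only [Pi.add_apply, Pi.mul_apply, Pi.pow_apply]
  unfold vph
  generalize ln a1 (b1 t) = x at *
  generalize ln a2 (b2 t) = y at *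
  have hx := p1.ne'
  have hy := p2.ne'
  field_simp
  ring

end Pool.Agent.Helper584.PG
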