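import Pool.Agent.Helper584.PL.Defs

set_option autoImplicit false

open MeasureTheory Set Filter Topology

noncomputable section

namespace Pool.Agent.Helper584.PG



theorem fderiv_comp_negE {F : Type*} [NormedAddCommGroup F] [NormedSpace ℝ F] (f : E → F)
    (x : E) : fderiv ℝ (fun y => f (-y)) x = -fderiv ℝ f (-x) := by
  have h := fderiv_comp_smul (𝕜 := ℝ) (f := f) (x := x) (-1 : ℝ)
  simpa only [neg_smul, one_smul] using h

theorem q_even (R : E → ℝ) (hR : ContDiffOn ℝ 2 R {0}ᶜ) (he : ∀ x, R (-x) = R x) (g : T)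
    (hg : g ∈ Fr) : q0 R (rX Real.pi g) = q0 R g ∧ q1 R (rX Real.pi g) = q1 R g ∧
      q2 R (rX Real.pi g) = q2 R g := by
  have hneg : (fun x => R (-x)) = R := funext he
  have h1 : ∀ x : E, fderiv ℝ R (-x) = -fderiv ℝ R x := by
    intro x
    have h := fderiv_comp_negE R x
    rw [hneg] at h
    rw [h, neg_neg]
  have h2 : (fun x => (-(fderiv ℝ R)) (-x)) = fderiv ℝ R := by
    funext x
    rw [Pi.neg_apply, h1 x, neg_neg]
  have h3 : ∀ x : E, fderiv ℝ (fderiv ℝ R) (-x) = fderiv ℝ (fderiv ℝ R) x := by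
    intro x
    have h := fderiv_comp_negE (-(fderiv ℝ R)) x
    rw [h2, fderiv_neg, neg_neg] at h
    exact h.symm
  have hx1 : (rX Real.pi g).1 = -g.1 := by
    simp [rX]
  have hx2 : (rX Real.pi g).2.1 = -g.2.1 := by
    simp [rX]
  refine ⟨?_, ?_, ?_⟩
  · unfold q0
    rw [hx1, he]
  · unfold q1
    rw [hx1, hx2, h1]
    simp
  · unfold q2
    rw [hx1, hx2, h1, h3]
    simp

end Pool.Agent.Helper584.PG
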