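import Pool.Agent.Helper584.PL.Defs
import Pool.Agent.Helper584.PL.P_fr_basic
import Pool.Agent.Helper584.PL.P_energyLip
import Pool.Agent.Helper584.PL.P_calcV
import Pool.Agent.Helper584.PL.P_ph_V
import Pool.Agent.Helper584.PL.P_q_even
import Pool.Agent.Helper584.PL.P_cont_F

set_option autoImplicit false

open MeasureTheory Set Filter Topology

noncomputable section

namespace Pool.Agent.Helper584.PG



theorem core_energy (μ : Measure T) (hμ : IsFM μ) (R1 R2 : E → ℝ)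
    (h1 : ContDiffOn ℝ 2 R1 {0}ᶜ) (h2 : ContDiffOn ℝ 2 R2 {0}ᶜ)
    (p1 : ∀ x, x ≠ 0 → 0 < R1 x) (p2 : ∀ x, x ≠ 0 → 0 < R2 x)
    (e1 : ∀ x, R1 (-x) = R1 x) (e2 : ∀ x, R2 (-x) = R2 x)
    (hz : ∀ g ∈ Fr, ∫ t in (0:ℝ)..(2 * Real.pi), FF R1 R2 (rX t g) = 0) :
    ∫ g, (FF R1 R2 g) ^ 2 ∂μ ≤ ∫ g, (VFF R1 R2 g) ^ 2 ∂μ := by
  classical
  obtain ⟨hFrc, hrX, hrV, hrH, cX, cV, cH, he0⟩ := fr_basic
  obtain ⟨cPH, cVPH, cFF, cVFF, B, hB⟩ := cont_F R1 R2 h1 h2 p1 p2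
  have hFrm : MeasurableSet Fr := hFrc.isClosed.measurableSet
  have hFm : Measurable (Fr.piecewise (FF R1 R2) (fun _ => (0:ℝ))) :=
    ContinuousOn.measurable_piecewise cFF continuousOn_const hFrm
  have hVFm : Measurable (Fr.piecewise (VFF R1 R2) (fun _ => (0:ℝ))) :=
    ContinuousOn.measurable_piecewise cVFF continuousOn_const hFrm
  have eF : ∀ g ∈ Fr, Fr.piecewise (FF R1 R2) (fun _ => (0:ℝ)) g = FF R1 R2 g := fun g hg =>
    Set.piecewise_eq_of_mem _ _ _ hg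
  have eVF : ∀ g ∈ Fr, Fr.piecewise (VFF R1 R2) (fun _ => (0:ℝ)) g = VFF R1 R2 g := fun g hg =>
    Set.piecewise_eq_of_mem _ _ _ hg
  have hae : ∀ᵐ g ∂μ, g ∈ Fr := by
    rw [ae_iff]
    exact hμ.supp
  have hmain := energyLip μ hμ _ _ hFm hVFm B
    (fun g hg => by rw [eF g hg]; exact (hB g hg).2.2.1)
    (fun g hg => by rw [eVF g hg]; exact (hB g hg).2.2.2) ?_ ?_ ?_
  · have i1 : ∫ g, (Fr.piecewise (FF R1 R2) (fun _ => (0:ℝ)) g) ^ 2 ∂μ =
        ∫ g, (FF R1 R2 g) ^ 2 ∂μ := by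
      refine integral_congr_ae ?_
      filter_upwards [hae] with g hg
      rw [eF g hg]
    have i2 : ∫ g, (Fr.piecewise (VFF R1 R2) (fun _ => (0:ℝ)) g) ^ 2 ∂μ =
        ∫ g, (VFF R1 R2 g) ^ 2 ∂μ := by
      refine integral_congr_ae ?_
      filter_upwards [hae] with g hg
      rw [eVF g hg]
    rw [← i1, ← i2]
    exact hmain
  · intro g hg t
    rw [eVF _ (hrV t g hg)]
    have hfun : (fun s => Fr.piecewise (FF R1 R2) (fun _ => (0:ℝ)) (rV s g)) =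
        fun s => (R1 g.1 - R2 g.1) * ph (R1 g.1) (q1 R1 (rV s g)) (q2 R1 (rV s g))
          (R2 g.1) (q1 R2 (rV s g)) (q2 R2 (rV s g)) := by
      funext s
      rw [eF _ (hrV s g hg)]
      rfl
    rw [hfun]
    have hg0 : g.1 ≠ 0 := by
      intro h0
      have := hg.1
      rw [h0, norm_zero] at this
      exact zero_ne_one this
    obtain ⟨_, a1, a2⟩ := calcV R1 h1 g hg t
    obtain ⟨_, b1, b2⟩ := calcV R2 h2 g hg t
    exact (ph_V (R1 g.1) (R2 g.1) (p1 _ hg0) (p2 _ hg0) (fun s => q1 R1 (rV s g))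
      (fun s => q2 R1 (rV s g)) (fun s => q1 R2 (rV s g)) (fun s => q2 R2 (rV s g))
      (q1' R1 (rV t g)) (q2' R1 (rV t g)) (q1' R2 (rV t g)) (q2' R2 (rV t g)) t
      a1 a2 b1 b2).const_mul (R1 g.1 - R2 g.1)
  · filter_upwards [hae] with g hg
    refine Eq.trans ?_ (hz g hg)
    congr 1
    funext t
    exact eF _ (hrX t g hg)
  · intro g hg
    rw [eF _ (hrX _ g hg), eF _ hg]
    obtain ⟨a0, a1, a2⟩ := q_even R1 h1 e1 g hg
    obtain ⟨b0, b1, b2⟩ := q_even R2 h2 e2 g hg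
    unfold FF PH
    rw [a0, a1, a2, b0, b1, b2]

end Pool.Agent.Helper584.PG
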