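import Pool.Agent.Helper584.PL.Defs
import Pool.Agent.Helper584.PL.P_fr_basic
import Pool.Agent.Helper584.PL.P_cont_q
import Pool.Agent.Helper584.PL.P_cont_F

set_option autoImplicit false

open MeasureTheory Set Filter Topology

noncomputable section

namespace Pool.Agent.Helper584.PG



theorem core_zero (μ : Measure T) (hμ : IsFM μ) (R1 R2 : E → ℝ)
    (h1 : ContDiffOn ℝ 2 R1 {0}ᶜ) (h2 : ContDiffOn ℝ 2 R2 {0}ᶜ)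
    (p1 : ∀ x, x ≠ 0 → 0 < R1 x) (p2 : ∀ x, x ≠ 0 → 0 < R2 x)
    (hE : ∫ g, (FF R1 R2 g) ^ 2 ∂μ ≤ ∫ g, (VFF R1 R2 g) ^ 2 ∂μ)
    (κ : ℝ) (hκ : 0 < κ)
    (hpos : ∀ g ∈ Fr, κ ≤ ∑ j ∈ Finset.range 4, ((PH R1 R2 (rV ((j:ℝ) * (Real.pi / 4)) g)) ^ 2 -
      (VPH R1 R2 (rV ((j:ℝ) * (Real.pi / 4)) g)) ^ 2)) :
    ∀ g ∈ Fr, R1 g.1 = R2 g.1 := by
  have hprob := hμ.prob
  obtain ⟨hcpt, -, hVm, -, -, hVc, -, -⟩ := fr_basic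
  obtain ⟨cPH, cVPH, cFF, cVFF, -⟩ := cont_F R1 R2 h1 h2 p1 p2
  have cf : ContinuousOn (fun g : T => q0 R1 g - q0 R2 g) Fr := (cont_q R1 h1).1.sub (cont_q R2 h2).1
  have hres : μ.restrict Fr = μ := by
    apply Measure.restrict_eq_self_of_ae_mem
    rw [ae_iff]
    exact hμ.supp
  have hint : ∀ h : T → ℝ, ContinuousOn h Fr → Integrable h μ := by
    intro h hc
    have h3 := hc.integrableOn_compact (μ := μ) hcpt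
    rwa [IntegrableOn, hres] at h3
  have hVt : ∀ t : ℝ, Continuous (rV t) := fun t =>
    hVc.comp (Continuous.prodMk continuous_const continuous_id)
  have hinv : ∀ (t : ℝ) (h : T → ℝ), ContinuousOn h Fr → ∫ g, h (rV t g) ∂μ = ∫ g, h g ∂μ := by
    intro t h hc
    have h3 := integral_map (μ := μ) (φ := rV t) (hVt t).aemeasurable (f := h) (by
      rw [hμ.invV t]
      exact (hint h hc).aestronglyMeasurable)
    rw [hμ.invV t] at h3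
    exact h3.symm
  have cD : ContinuousOn (fun g => (FF R1 R2 g) ^ 2 - (VFF R1 R2 g) ^ 2) Fr :=
    (cFF.pow 2).sub (cVFF.pow 2)
  have hD0 : ∫ g, ((FF R1 R2 g) ^ 2 - (VFF R1 R2 g) ^ 2) ∂μ ≤ 0 := by
    have h3 := integral_sub (μ := μ) (f := fun g => FF R1 R2 g ^ 2) (g := fun g => VFF R1 R2 g ^ 2)
      (hint _ (cFF.pow 2)) (hint _ (cVFF.pow 2))
    have h4 : ∫ g, ((FF R1 R2 g) ^ 2 - (VFF R1 R2 g) ^ 2) ∂μ =
      ∫ g, (FF R1 R2 g) ^ 2 ∂μ - ∫ g, (VFF R1 R2 g) ^ 2 ∂μ := h3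
    rw [h4]
    linarith
  have cDV : ∀ t : ℝ, ContinuousOn (fun g => (FF R1 R2 (rV t g)) ^ 2 - (VFF R1 R2 (rV t g)) ^ 2) Fr :=
    fun t => cD.comp (hVt t).continuousOn (fun g hg => hVm t g hg)
  have hsum : ∫ g, (∑ j ∈ Finset.range 4, ((FF R1 R2 (rV ((j:ℝ) * (Real.pi / 4)) g)) ^ 2 -
      (VFF R1 R2 (rV ((j:ℝ) * (Real.pi / 4)) g)) ^ 2)) ∂μ =
      4 * ∫ g, ((FF R1 R2 g) ^ 2 - (VFF R1 R2 g) ^ 2) ∂μ := by
    rw [integral_finsetSum _ (fun j _ => hint _ (cDV _))]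
    have h3 : ∀ j ∈ Finset.range 4, ∫ g, ((FF R1 R2 (rV ((j:ℝ) * (Real.pi / 4)) g)) ^ 2 -
      (VFF R1 R2 (rV ((j:ℝ) * (Real.pi / 4)) g)) ^ 2) ∂μ =
        ∫ g, ((FF R1 R2 g) ^ 2 - (VFF R1 R2 g) ^ 2) ∂μ := fun j _ =>
      hinv _ (fun g => (FF R1 R2 g) ^ 2 - (VFF R1 R2 g) ^ 2) cD
    rw [Finset.sum_congr rfl h3]
    simp
  have hge : ∫ g, κ * (q0 R1 g - q0 R2 g) ^ 2 ∂μ ≤
      ∫ g, (∑ j ∈ Finset.range 4, ((FF R1 R2 (rV ((j:ℝ) * (Real.pi / 4)) g)) ^ 2 -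
      (VFF R1 R2 (rV ((j:ℝ) * (Real.pi / 4)) g)) ^ 2)) ∂μ := by
    refine integral_mono_ae (hint _ ((cf.pow 2).const_mul κ))
      (integrable_finsetSum _ (fun j _ => hint _ (cDV _))) ?_
    have hae : ∀ᵐ g ∂μ, g ∈ Fr := by
      rw [ae_iff]
      exact hμ.supp
    filter_upwards [hae] with g hg
    have h3 := hpos g hg
    have h4 : ∑ j ∈ Finset.range 4, ((FF R1 R2 (rV ((j:ℝ) * (Real.pi / 4)) g)) ^ 2 -
      (VFF R1 R2 (rV ((j:ℝ) * (Real.pi / 4)) g)) ^ 2) = (q0 R1 g - q0 R2 g) ^ 2 *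
      ∑ j ∈ Finset.range 4, ((PH R1 R2 (rV ((j:ℝ) * (Real.pi / 4)) g)) ^ 2 -
      (VPH R1 R2 (rV ((j:ℝ) * (Real.pi / 4)) g)) ^ 2) := by
      rw [Finset.mul_sum]
      refine Finset.sum_congr rfl fun j _ => ?_
      have e1 : ∀ t : ℝ, FF R1 R2 (rV t g) = (q0 R1 g - q0 R2 g) * PH R1 R2 (rV t g) := fun t => rfl
      have e2 : ∀ t : ℝ, VFF R1 R2 (rV t g) = (q0 R1 g - q0 R2 g) * VPH R1 R2 (rV t g) := fun t => rfl
      rw [e1, e2]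
      ring
    show κ * (q0 R1 g - q0 R2 g) ^ 2 ≤ ∑ j ∈ Finset.range 4,
      ((FF R1 R2 (rV ((j:ℝ) * (Real.pi / 4)) g)) ^ 2 -
      (VFF R1 R2 (rV ((j:ℝ) * (Real.pi / 4)) g)) ^ 2)
    rw [h4]
    nlinarith [sq_nonneg (q0 R1 g - q0 R2 g)]
  have hle : ∫ g, (q0 R1 g - q0 R2 g) ^ 2 ∂μ ≤ 0 := by
    rw [hsum, integral_const_mul] at hge
    by_contra hcon
    push Not at hcon
    have := mul_pos hκ hcon
    linarith
  have hzero : ∫ g, (q0 R1 g - q0 R2 g) ^ 2 ∂μ = 0 :=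
    le_antisymm hle (integral_nonneg fun g => sq_nonneg _)
  have hae0 := (integral_eq_zero_iff_of_nonneg (μ := μ)
    (f := fun g => (q0 R1 g - q0 R2 g) ^ 2) (fun g => sq_nonneg _) (hint _ (cf.pow 2))).1 hzero
  intro g0 hg0
  by_contra hne
  have hne' : q0 R1 g0 - q0 R2 g0 ≠ 0 := sub_ne_zero.2 hne
  obtain ⟨U, hU, hUe⟩ := (continuousOn_iff'.1 cf) {0}ᶜ isOpen_compl_singleton
  have hg0U : g0 ∈ U ∩ Fr := by
    rw [← hUe]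
    exact ⟨hne', hg0⟩
  refine hμ.pos U hU ⟨g0, hg0U⟩ ?_
  have hsub : U ⊆ {g | ¬ (q0 R1 g - q0 R2 g) ^ 2 = 0} ∪ Frᶜ := by
    intro g hg
    by_cases hgF : g ∈ Fr
    · have h3 : g ∈ U ∩ Fr := ⟨hg, hgF⟩
      rw [← hUe] at h3
      refine Or.inl ?_
      have h4 : q0 R1 g - q0 R2 g ≠ 0 := h3.1
      show ¬ (q0 R1 g - q0 R2 g) ^ 2 = 0
      exact pow_ne_zero 2 h4
    · exact Or.inr hgF
  have h5 : μ {g | ¬ (q0 R1 g - q0 R2 g) ^ 2 = 0} = 0 := ae_iff.1 hae0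
  refine le_antisymm ?_ bot_le
  calc μ U ≤ μ ({g | ¬ (q0 R1 g - q0 R2 g) ^ 2 = 0} ∪ Frᶜ) := measure_mono hsub
    _ ≤ μ {g | ¬ (q0 R1 g - q0 R2 g) ^ 2 = 0} + μ Frᶜ := measure_union_le _ _
    _ = 0 := by rw [h5, hμ.supp, add_zero]

end Pool.Agent.Helper584.PG
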