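import Pool.Agent.Helper584.PL.Defs

set_option autoImplicit false

open MeasureTheory Set Filter Topology

noncomputable section

namespace Pool.Agent.Helper584.PG



theorem fib_alg (m M a b c : ℝ) (hm : 0 < m) (hM : M < (5 + 2 * Real.sqrt 6) * m) (hmM : m ≤ M)
    (hG : ∀ s : ℝ, m ≤ a * (Real.cos s) ^ 2 + b * (Real.sin s) ^ 2 + 2 * c * Real.sin s * Real.cos s ∧
      a * (Real.cos s) ^ 2 + b * (Real.sin s) ^ 2 + 2 * c * Real.sin s * Real.cos s ≤ M) :
    0 < 4 * m ^ 2 * (1 - 3 / 2 * ((M - m) / (M + m)) ^ 2) ∧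
    4 * m ^ 2 * (1 - 3 / 2 * ((M - m) / (M + m)) ^ 2) ≤
      4 * ((a + b) / 2) ^ 2 - 6 * (((a - b) / 2) ^ 2 + c ^ 2) := by
  have h6 : Real.sqrt 6 ^ 2 = 6 := Real.sq_sqrt (by norm_num)
  have h6' : (2.4 : ℝ) < Real.sqrt 6 := by
    rw [Real.lt_sqrt (by norm_num)]
    norm_num
  have hMm : 0 < M + m := by linarith
  -- positivity
  have hq : M ^ 2 - 10 * M * m + m ^ 2 < 0 := by
    have e1 : M ^ 2 - 10 * M * m + m ^ 2 =
        (M - (5 + 2 * Real.sqrt 6) * m) * (M - (5 - 2 * Real.sqrt 6) * m) := by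
      have : (M - (5 + 2 * Real.sqrt 6) * m) * (M - (5 - 2 * Real.sqrt 6) * m) =
        M ^ 2 - 10 * M * m + (25 - 4 * Real.sqrt 6 ^ 2) * m ^ 2 := by ring
      rw [this, h6]
      ring
    rw [e1]
    apply mul_neg_of_neg_of_pos
    · linarith
    · nlinarith
  have hx : 0 < 1 - 3 / 2 * ((M - m) / (M + m)) ^ 2 := by
    rw [div_pow]
    have h2 : 0 < (M + m) ^ 2 := by positivity
    have e2 : 1 - 3 / 2 * ((M - m) ^ 2 / (M + m) ^ 2) =
        (2 * (M + m) ^ 2 - 3 * (M - m) ^ 2) / (2 * (M + m) ^ 2) := by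
      field_simp
    rw [e2]
    apply div_pos _ (by positivity)
    nlinarith
  refine ⟨by positivity, ?_⟩
  set A := (a + b) / 2 with hA
  set D := (a - b) / 2 with hD
  set d := Real.sqrt (D ^ 2 + c ^ 2) with hd
  have hd0 : 0 ≤ d := Real.sqrt_nonneg _
  have hd2 : d ^ 2 = D ^ 2 + c ^ 2 := Real.sq_sqrt (by positivity)
  have hf : ∀ s : ℝ, a * (Real.cos s) ^ 2 + b * (Real.sin s) ^ 2 + 2 * c * Real.sin s * Real.cos s =
      A + D * Real.cos (2 * s) + c * Real.sin (2 * s) := by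
    intro s
    rw [Real.cos_two_mul, Real.sin_two_mul]
    have := Real.sin_sq_add_cos_sq s
    have h3 : Real.sin s ^ 2 = 1 - Real.cos s ^ 2 := by linarith
    rw [h3, hA, hD]
    ring
  have hex : ∃ φ : ℝ, D * Real.cos φ + c * Real.sin φ = d := by
    by_cases hz : d = 0
    · refine ⟨0, ?_⟩
      have h4 : D ^ 2 + c ^ 2 = 0 := by rw [← hd2, hz]; norm_num
      have h5 : D = 0 := by nlinarith [sq_nonneg D, sq_nonneg c]
      rw [hz, h5]
      simp
    · have hdp : 0 < d := lt_of_le_of_ne hd0 (Ne.symm hz)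
      have hne : (⟨D, c⟩ : ℂ) ≠ 0 := by
        intro h
        have h4 := congrArg Complex.re h
        have h5 := congrArg Complex.im h
        simp at h4 h5
        apply hz
        rw [hd, h4, h5]
        simp
      have hn : ‖(⟨D, c⟩ : ℂ)‖ = d := by
        rw [hd, Complex.norm_def, Complex.normSq_apply]
        congr 1
        ring
      refine ⟨Complex.arg ⟨D, c⟩, ?_⟩
      rw [Complex.cos_arg hne, Complex.sin_arg, hn]
      field_simp
      linarith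
  obtain ⟨φ, hφ⟩ := hex
  have h1 := (hG (φ / 2)).2
  rw [hf, show 2 * (φ / 2) = φ by ring] at h1
  have h2 := (hG ((φ + Real.pi) / 2)).1
  rw [hf, show 2 * ((φ + Real.pi) / 2) = φ + Real.pi by ring, Real.cos_add_pi, Real.sin_add_pi] at h2
  have hM1 : A + d ≤ M := by linarith
  have hm1 : m ≤ A - d := by linarith
  have hA0 : m ≤ A := by linarith
  have hAx : d ≤ A * ((M - m) / (M + m)) := by
    rw [← mul_div_assoc, le_div_iff₀ hMm]
    have e1 : m * (A + d) ≤ m * M := mul_le_mul_of_nonneg_left hM1 hm.le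
    have e2 : m * M ≤ (A - d) * M := mul_le_mul_of_nonneg_right hm1 (by linarith)
    nlinarith
  have hx0 : 0 ≤ (M - m) / (M + m) := div_nonneg (by linarith) hMm.le
  have hd3 : d ^ 2 ≤ (A * ((M - m) / (M + m))) ^ 2 := pow_le_pow_left₀ hd0 hAx 2
  have hmA : m ^ 2 ≤ A ^ 2 := pow_le_pow_left₀ hm.le hA0 2
  have hfin : 4 * m ^ 2 * (1 - 3 / 2 * ((M - m) / (M + m)) ^ 2) ≤
      4 * A ^ 2 * (1 - 3 / 2 * ((M - m) / (M + m)) ^ 2) :=
    mul_le_mul_of_nonneg_right (by linarith) hx.le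
  rw [← hd2]
  calc 4 * m ^ 2 * (1 - 3 / 2 * ((M - m) / (M + m)) ^ 2)
      ≤ 4 * A ^ 2 * (1 - 3 / 2 * ((M - m) / (M + m)) ^ 2) := hfin
    _ = 4 * A ^ 2 - 6 * (A * ((M - m) / (M + m))) ^ 2 := by ring
    _ ≤ 4 * A ^ 2 - 6 * d ^ 2 := by linarith

end Pool.Agent.Helper584.PG
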