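import Pool.Agent.Helper584.PL.Defs
import Pool.Agent.Helper584.PL.P_fr_basic

set_option autoImplicit false

open MeasureTheory Set Filter Topology

noncomputable section

namespace Pool.Agent.Helper584.PG



theorem fib_rot (R : E → ℝ) (hR : ContDiffOn ℝ 2 R {0}ᶜ) (g : T) (hg : g ∈ Fr) (s : ℝ) :
    q2 R (rV s g) = q2 R g * (Real.cos s) ^ 2 + q2 R (rV (Real.pi / 2) g) * (Real.sin s) ^ 2 +
      2 * q2' R g * Real.sin s * Real.cos s ∧
    2 * q2' R (rV s g) = (q2 R (rV (Real.pi / 2) g) - q2 R g) * Real.sin (2 * s) +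
      2 * q2' R g * Real.cos (2 * s) := by
  have hx : g.1 ≠ 0 := by
    intro h
    have := hg.1
    rw [h, norm_zero] at this
    exact zero_ne_one this
  have hcd : ContDiffAt ℝ 2 R g.1 := hR.contDiffAt (isOpen_compl_singleton.mem_nhds hx)
  have hsym : IsSymmSndFDerivAt ℝ R g.1 := hcd.isSymmSndFDerivAt (by simp)
  have hD : fderiv ℝ (fderiv ℝ R) g.1 g.2.2 g.2.1 = fderiv ℝ (fderiv ℝ R) g.1 g.2.1 g.2.2 :=
    hsym.eq g.2.2 g.2.1
  set D := fderiv ℝ (fderiv ℝ R) g.1 with hDdef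
  have hcs := Real.sin_sq_add_cos_sq s
  have e1 : q2 R (rV s g) = D (Real.cos s • g.2.1 + Real.sin s • g.2.2)
      (Real.cos s • g.2.1 + Real.sin s • g.2.2) - fderiv ℝ R g.1 g.1 := rfl
  have e2 : q2 R g = D g.2.1 g.2.1 - fderiv ℝ R g.1 g.1 := rfl
  have e3 : q2 R (rV (Real.pi / 2) g) = D g.2.2 g.2.2 - fderiv ℝ R g.1 g.1 := by
    show D (Real.cos (Real.pi / 2) • g.2.1 + Real.sin (Real.pi / 2) • g.2.2)
      (Real.cos (Real.pi / 2) • g.2.1 + Real.sin (Real.pi / 2) • g.2.2) - fderiv ℝ R g.1 g.1 = _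
    rw [Real.cos_pi_div_two, Real.sin_pi_div_two, zero_smul, one_smul, zero_add]
  have e4 : q2' R g = D g.2.1 g.2.2 := rfl
  have e5 : q2' R (rV s g) = D (Real.cos s • g.2.1 + Real.sin s • g.2.2)
      ((-Real.sin s) • g.2.1 + Real.cos s • g.2.2) := rfl
  have b1 : D (Real.cos s • g.2.1 + Real.sin s • g.2.2)
      (Real.cos s • g.2.1 + Real.sin s • g.2.2)
      = Real.cos s ^ 2 * D g.2.1 g.2.1 + Real.sin s ^ 2 * D g.2.2 g.2.2
        + 2 * Real.sin s * Real.cos s * D g.2.1 g.2.2 := by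
    simp only [map_add, map_smul, ContinuousLinearMap.add_apply, ContinuousLinearMap.smul_apply,
      smul_eq_mul]
    rw [hD]; ring
  have b2 : D (Real.cos s • g.2.1 + Real.sin s • g.2.2)
      ((-Real.sin s) • g.2.1 + Real.cos s • g.2.2)
      = Real.sin s * Real.cos s * (D g.2.2 g.2.2 - D g.2.1 g.2.1)
        + (Real.cos s ^ 2 - Real.sin s ^ 2) * D g.2.1 g.2.2 := by
    simp only [map_add, map_smul, ContinuousLinearMap.add_apply, ContinuousLinearMap.smul_apply,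
      smul_eq_mul]
    rw [hD]; ring
  rw [e1, e2, e3, e4, e5, b1, b2]
  constructor
  · linear_combination (fderiv ℝ R g.1 g.1) * hcs
  · rw [Real.sin_two_mul, Real.cos_two_mul']
    ring

end Pool.Agent.Helper584.PG
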