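import Pool.Agent.Helper584.PL.Defs
import Pool.Agent.Helper584.PL.P_fr_basic
import Pool.Agent.Helper584.PL.P_fib_alg
import Pool.Agent.Helper584.PL.P_fib_rot

set_option autoImplicit false

open MeasureTheory Set Filter Topology

noncomputable section

namespace Pool.Agent.Helper584.PG



theorem fib4 (R1 R2 : E → ℝ) (h1 : ContDiffOn ℝ 2 R1 {0}ᶜ) (h2 : ContDiffOn ℝ 2 R2 {0}ᶜ)
    (m M : ℝ) (hm : 0 < m) (hM : M < (5 + 2 * Real.sqrt 6) * m) (hmM : m ≤ M)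
    (hG : ∀ g ∈ Fr, m ≤ 1 - (q2 R1 g + q2 R2 g) / 2 ∧ 1 - (q2 R1 g + q2 R2 g) / 2 ≤ M)
    (g : T) (hg : g ∈ Fr) :
    0 < 4 * m ^ 2 * (1 - 3 / 2 * ((M - m) / (M + m)) ^ 2) ∧
    4 * m ^ 2 * (1 - 3 / 2 * ((M - m) / (M + m)) ^ 2) ≤
      ∑ j ∈ Finset.range 4,
        ((1 - (q2 R1 (rV ((j:ℝ) * (Real.pi / 4)) g) + q2 R2 (rV ((j:ℝ) * (Real.pi / 4)) g)) / 2) ^ 2 -
          (q2' R1 (rV ((j:ℝ) * (Real.pi / 4)) g) + q2' R2 (rV ((j:ℝ) * (Real.pi / 4)) g)) ^ 2) := by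
  have e1 := fun s => fib_rot R1 h1 g hg s
  have e2 := fun s => fib_rot R2 h2 g hg s
  obtain ⟨-, -, hV, -, -, -, -, -⟩ := fr_basic
  set A : ℝ := q2 R1 g + q2 R2 g with hA
  set B : ℝ := q2 R1 (rV (Real.pi / 2) g) + q2 R2 (rV (Real.pi / 2) g) with hB
  set C : ℝ := q2' R1 g + q2' R2 g with hC
  have hq : ∀ s : ℝ, q2 R1 (rV s g) + q2 R2 (rV s g) =
      A * (Real.cos s) ^ 2 + B * (Real.sin s) ^ 2 + 2 * C * Real.sin s * Real.cos s := by
    intro s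
    rw [(e1 s).1, (e2 s).1, hA, hB, hC]; ring
  have hq' : ∀ s : ℝ, q2' R1 (rV s g) + q2' R2 (rV s g) =
      (B - A) / 2 * Real.sin (2 * s) + C * Real.cos (2 * s) := by
    intro s
    have u1 := (e1 s).2
    have u2 := (e2 s).2
    rw [hA, hB, hC]; linarith
  have key := fib_alg m M (1 - A / 2) (1 - B / 2) (-C / 2) hm hM hmM (by
    intro s
    have u := hG (rV s g) (hV s g hg)
    rw [hq s] at u
    have v := Real.sin_sq_add_cos_sq s
    have w : (1 - A / 2) * (Real.cos s) ^ 2 + (1 - B / 2) * (Real.sin s) ^ 2 +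
        2 * (-C / 2) * Real.sin s * Real.cos s =
        1 - (A * (Real.cos s) ^ 2 + B * (Real.sin s) ^ 2 + 2 * C * Real.sin s * Real.cos s) / 2 := by
      linear_combination v
    rw [w]; exact u)
  refine ⟨key.1, key.2.trans (le_of_eq ?_)⟩
  simp only [Finset.sum_range_succ, Finset.sum_range_zero, hq, hq']
  have t0 : ((0:ℕ):ℝ) * (Real.pi / 4) = 0 := by simp
  have t1 : ((1:ℕ):ℝ) * (Real.pi / 4) = Real.pi / 4 := by simp
  have t2 : ((2:ℕ):ℝ) * (Real.pi / 4) = Real.pi / 2 := by push_cast; ring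
  have t3 : ((3:ℕ):ℝ) * (Real.pi / 4) = Real.pi - Real.pi / 4 := by push_cast; ring
  rw [t0, t1, t2, t3]
  have d1 : 2 * (Real.pi / 4) = Real.pi / 2 := by ring
  have d2 : 2 * (Real.pi / 2) = Real.pi := by ring
  have d3 : 2 * (Real.pi - Real.pi / 4) = Real.pi / 2 + Real.pi := by ring
  rw [d1, d2, d3, Real.sin_pi_sub, Real.cos_pi_sub, Real.sin_add_pi, Real.cos_add_pi,
    Real.sin_pi_div_four, Real.cos_pi_div_four, Real.sin_pi_div_two, Real.cos_pi_div_two,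
    Real.sin_pi, Real.cos_pi, mul_zero, Real.sin_zero, Real.cos_zero]
  have r2 : Real.sqrt 2 ^ 2 = 2 := Real.sq_sqrt (by norm_num)
  have r4 : Real.sqrt 2 ^ 4 = 4 := by
    rw [show (4:ℕ) = 2 * 2 by norm_num, pow_mul, r2]; norm_num
  ring_nf
  try rw [r4]
  try rw [r2]
  try ring

end Pool.Agent.Helper584.PG
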