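import Pool.Agent.Helper584.PL.Defs
import Pool.Agent.Helper584.PL.P_fr_basic
import Pool.Agent.Helper584.PL.P_calcX
import Pool.Agent.Helper584.PL.P_fib_rot

set_option autoImplicit false

open MeasureTheory Set Filter Topology

noncomputable section

namespace Pool.Agent.Helper584.PG



theorem landau (R : E → ℝ) (hR : ContDiffOn ℝ 2 R {0}ᶜ) (L ε : ℝ) (hL : 0 ≤ L) (hε : 0 < ε)
    (h0 : ∀ g ∈ Fr, |q0 R g - 1| ≤ ε) (h2 : ∀ g ∈ Fr, |q2 R g| ≤ L) (g : T) (hg : g ∈ Fr) :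
    |q1 R g| ≤ (2 + L) * Real.sqrt ε ∧ |q1' R g| ≤ (2 + L) * Real.sqrt ε ∧ |q2' R g| ≤ 2 * L := by
  have hτ : 0 < Real.sqrt ε := Real.sqrt_pos.mpr hε
  have hττ : Real.sqrt ε * Real.sqrt ε = ε := Real.mul_self_sqrt hε.le
  have hrX : ∀ t : ℝ, ∀ g ∈ Fr, rX t g ∈ Fr := fr_basic.2.1
  have hrV : ∀ t : ℝ, ∀ g ∈ Fr, rV t g ∈ Fr := fr_basic.2.2.1
  have key : ∀ g ∈ Fr, |q1 R g| ≤ (2 + L) * Real.sqrt ε := by
    intro g hg
    have hX0 : rX 0 g = g := by
      unfold rX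
      simp
    have hd0 : ∀ t, HasDerivAt (fun s => q0 R (rX s g)) (q1 R (rX t g)) t :=
      fun t => (calcX R hR g hg t).1
    have hd1 : ∀ t, HasDerivAt (fun s => q1 R (rX s g)) (q2 R (rX t g)) t :=
      fun t => (calcX R hR g hg t).2
    obtain ⟨c, hc, hc2⟩ := exists_hasDerivAt_eq_slope (fun s => q0 R (rX s g))
      (fun s => q1 R (rX s g)) hτ
      (fun x _ => (hd0 x).continuousAt.continuousWithinAt) (fun x _ => hd0 x)
    obtain ⟨d, hd, hd2⟩ := exists_hasDerivAt_eq_slope (fun s => q1 R (rX s g))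
      (fun s => q2 R (rX s g)) hc.1
      (fun x _ => (hd1 x).continuousAt.continuousWithinAt) (fun x _ => hd1 x)
    simp only [sub_zero] at hc2 hd2
    rw [hX0] at hc2 hd2
    rw [eq_div_iff hτ.ne'] at hc2
    rw [eq_div_iff hc.1.ne'] at hd2
    have a1 := abs_le.mp (h0 _ (hrX (Real.sqrt ε) g hg))
    have a2 := abs_le.mp (h0 _ hg)
    have a3 := abs_le.mp (h2 _ (hrX d g hg))
    have b1 : |q1 R (rX c g)| ≤ 2 * Real.sqrt ε := by
      have : |q1 R (rX c g) * Real.sqrt ε| ≤ 2 * ε := by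
        rw [hc2, abs_le]
        constructor <;> linarith [a1.1, a1.2, a2.1, a2.2]
      rw [abs_mul, abs_of_pos hτ] at this
      nlinarith
    have b2 : |q1 R (rX c g) - q1 R g| ≤ L * Real.sqrt ε := by
      rw [← hd2, abs_mul, abs_of_pos hc.1]
      exact mul_le_mul (h2 _ (hrX d g hg)) hc.2.le hc.1.le hL
    have b3 : q1 R g = q1 R (rX c g) - (q1 R (rX c g) - q1 R g) := by ring
    calc |q1 R g| = |q1 R (rX c g) - (q1 R (rX c g) - q1 R g)| := by rw [← b3]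
      _ ≤ |q1 R (rX c g)| + |q1 R (rX c g) - q1 R g| := abs_sub _ _
      _ ≤ (2 + L) * Real.sqrt ε := by linarith
  refine ⟨key g hg, ?_, ?_⟩
  · have e : q1' R g = q1 R (rV (Real.pi / 2) g) := by
      unfold q1' q1 rV
      simp
    rw [e]
    exact key _ (hrV _ g hg)
  · have h := (fib_rot R hR g hg (Real.pi / 4)).1
    rw [Real.cos_pi_div_four, Real.sin_pi_div_four] at h
    have h22 : Real.sqrt 2 ^ 2 = 2 := Real.sq_sqrt (by norm_num)
    have h' : q2' R g = q2 R (rV (Real.pi / 4) g) - q2 R g / 2 - q2 R (rV (Real.pi / 2) g) / 2 := by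
      have e1 : (Real.sqrt 2 / 2) ^ 2 = 1 / 2 := by rw [div_pow, h22]; norm_num
      have e2 : 2 * q2' R g * (Real.sqrt 2 / 2) * (Real.sqrt 2 / 2) = q2' R g := by
        have : 2 * q2' R g * (Real.sqrt 2 / 2) * (Real.sqrt 2 / 2) = q2' R g * (2 * (Real.sqrt 2 / 2) ^ 2) := by ring
        rw [this, e1]; ring
      rw [e1, e2] at h
      linarith
    have a1 := abs_le.mp (h2 _ (hrV (Real.pi / 4) g hg))
    have a2 := abs_le.mp (h2 _ hg)
    have a3 := abs_le.mp (h2 _ (hrV (Real.pi / 2) g hg))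
    rw [h', abs_le]
    constructor <;> linarith [a1.1, a1.2, a2.1, a2.2, a3.1, a3.2]

end Pool.Agent.Helper584.PG
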