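import Pool.Agent.Helper584.PL.Defs
import Pool.Agent.Helper584.PL.P_fr_basic
import Pool.Agent.Helper584.PL.P_fib4
import Pool.Agent.Helper584.PL.P_approx1
import Pool.Agent.Helper584.PL.P_approx2
import Pool.Agent.Helper584.PL.P_landau

set_option autoImplicit false

open MeasureTheory Set Filter Topology

noncomputable section

namespace Pool.Agent.Helper584.PG



theorem pos4_pt (G G' P V δ L : ℝ) (hδ0 : 0 ≤ δ) (hδ1 : δ ≤ 1) (hG : |G| ≤ 1 + L)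
    (hG' : |G'| ≤ 4 * L) (hP : |P - G| ≤ δ) (hV : |V + G'| ≤ δ) :
    G ^ 2 - G' ^ 2 - (3 + 10 * L) * δ ≤ P ^ 2 - V ^ 2 := by
  obtain ⟨e, he⟩ : ∃ e, e = P - G := ⟨_, rfl⟩
  obtain ⟨f, hf⟩ : ∃ f, f = V + G' := ⟨_, rfl⟩
  have hPe : P = G + e := by rw [he]; ring
  have hVf : V = f - G' := by rw [hf]; ring
  rw [← he] at hP
  rw [← hf] at hV
  have h1 : |G * e| ≤ (1 + L) * δ := by
    rw [abs_mul]
    exact mul_le_mul hG hP (abs_nonneg _) (le_trans (abs_nonneg _) hG)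
  have h2 : |G' * f| ≤ (4 * L) * δ := by
    rw [abs_mul]
    exact mul_le_mul hG' hV (abs_nonneg _) (le_trans (abs_nonneg _) hG')
  have h3 : f ^ 2 ≤ δ := by
    have h4 : f ^ 2 ≤ δ ^ 2 := sq_le_sq' (by linarith [neg_le_of_abs_le hV]) (le_of_abs_le hV)
    nlinarith
  have h5 := neg_le_of_abs_le h1
  have h6 := neg_le_of_abs_le h2
  rw [hPe, hVf]
  nlinarith [sq_nonneg e]

theorem pos4 (m M : ℝ) (hm : 0 < m) (hM : M < (5 + 2 * Real.sqrt 6) * m) (hmM : m ≤ M) :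
    ∃ ε : ℝ, 0 < ε ∧ ∃ κ : ℝ, 0 < κ ∧ ∀ R1 R2 : E → ℝ, ContDiffOn ℝ 2 R1 {0}ᶜ →
      ContDiffOn ℝ 2 R2 {0}ᶜ →
      (∀ g ∈ Fr, |q0 R1 g - 1| ≤ ε ∧ m ≤ 1 - q2 R1 g ∧ 1 - q2 R1 g ≤ M) →
      (∀ g ∈ Fr, |q0 R2 g - 1| ≤ ε ∧ m ≤ 1 - q2 R2 g ∧ 1 - q2 R2 g ≤ M) →
      ∀ g ∈ Fr, κ ≤ ∑ j ∈ Finset.range 4, ((PH R1 R2 (rV ((j:ℝ) * (Real.pi / 4)) g)) ^ 2 -
        (VPH R1 R2 (rV ((j:ℝ) * (Real.pi / 4)) g)) ^ 2) := by
  -- the constant of `fib4`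
  set κ0 : ℝ := 4 * m ^ 2 * (1 - 3 / 2 * ((M - m) / (M + m)) ^ 2) with hκ0
  have hκ0pos : 0 < κ0 := by
    have hs : Real.sqrt 6 ^ 2 = 6 := Real.sq_sqrt (by norm_num)
    have hs0 : 0 ≤ Real.sqrt 6 := Real.sqrt_nonneg 6
    have hs2 : 2 ≤ Real.sqrt 6 := by
      rw [show (2:ℝ) = Real.sqrt 4 by
        rw [show (4:ℝ) = 2 ^ 2 by norm_num]; exact (Real.sqrt_sq (by norm_num)).symm]
      exact Real.sqrt_le_sqrt (by norm_num)
    have hMm : 0 < M + m := by linarith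
    have h1 : 0 < ((5 + 2 * Real.sqrt 6) * m - M) * (M - (5 - 2 * Real.sqrt 6) * m) := by
      apply mul_pos
      · linarith
      · nlinarith
    have h2 : ((5 + 2 * Real.sqrt 6) * m - M) * (M - (5 - 2 * Real.sqrt 6) * m) =
        10 * M * m - M ^ 2 - m ^ 2 + (4 * Real.sqrt 6 ^ 2 - 24) * m ^ 2 := by ring
    rw [h2, hs] at h1
    have h3 : 3 * (M - m) ^ 2 < 2 * (M + m) ^ 2 := by nlinarith
    have h4 : ((M - m) / (M + m)) ^ 2 < 2 / 3 := by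
      rw [div_pow, div_lt_iff₀ (by positivity)]
      linarith
    have h5 : 0 < 1 - 3 / 2 * ((M - m) / (M + m)) ^ 2 := by linarith
    positivity
  set L : ℝ := M + 1 with hL
  have hL0 : 0 ≤ L := by linarith
  have hM0 : 0 < M := by linarith
  set D : ℝ := 40 * (1 + 2 * L) * (2 + L) with hD
  have hD80 : 80 ≤ D := by
    rw [hD]; nlinarith
  have hD0 : 0 < D := by linarith
  set A : ℝ := 8 * (3 + 10 * L) * D with hA
  have hA0 : 0 < A := by positivity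
  set r : ℝ := min (1 / D) (κ0 / A) with hr
  have hr0 : 0 < r := lt_min (by positivity) (by positivity)
  have hr1 : r ≤ 1 / D := min_le_left _ _
  have hr2 : r ≤ κ0 / A := min_le_right _ _
  have hDr : D * r ≤ 1 := by
    rw [le_div_iff₀ hD0] at hr1
    linarith
  have hAr : A * r ≤ κ0 := by
    rw [le_div_iff₀ hA0] at hr2
    linarith
  have hrle1 : r ≤ 1 := by nlinarith
  refine ⟨r ^ 2, by positivity, κ0 / 2, by positivity, ?_⟩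
  intro R1 R2 hR1 hR2 hg1 hg2 g hg
  have hsq : Real.sqrt (r ^ 2) = r := Real.sqrt_sq hr0.le
  have hq2 : ∀ R : E → ℝ, (∀ g ∈ Fr, |q0 R g - 1| ≤ r ^ 2 ∧ m ≤ 1 - q2 R g ∧ 1 - q2 R g ≤ M) →
      ∀ g ∈ Fr, |q2 R g| ≤ L := by
    intro R h g hg
    obtain ⟨_, h2, h3⟩ := h g hg
    rw [abs_le]
    constructor
    · rw [hL]; linarith
    · rw [hL]; linarith
  have hl1 := landau R1 hR1 L (r ^ 2) hL0 (by positivity) (fun g hg => (hg1 g hg).1) (hq2 R1 hg1)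
  have hl2 := landau R2 hR2 L (r ^ 2) hL0 (by positivity) (fun g hg => (hg2 g hg).1) (hq2 R2 hg2)
  rw [hsq] at hl1 hl2
  set η : ℝ := (2 + L) * r with hη
  have hη0 : 0 ≤ η := by positivity
  have hδ : 40 * (1 + 2 * L) * η = D * r := by rw [hη, hD]; ring
  have hη4 : η ≤ 1 / 4 := by
    have h1 : 40 * η ≤ 40 * (1 + 2 * L) * η := by nlinarith
    linarith
  have hrη : r ^ 2 ≤ η := by
    rw [hη]; nlinarith
  have hδ0 : 0 ≤ D * r := by positivity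
  have hpt : ∀ g ∈ Fr, (1 - (q2 R1 g + q2 R2 g) / 2) ^ 2 - (q2' R1 g + q2' R2 g) ^ 2 -
      (3 + 10 * L) * (D * r) ≤ (PH R1 R2 g) ^ 2 - (VPH R1 R2 g) ^ 2 := by
    intro g hg
    obtain ⟨ha1, _, _⟩ := hg1 g hg
    obtain ⟨ha2, _, _⟩ := hg2 g hg
    have hc1 := hq2 R1 hg1 g hg
    have hc2 := hq2 R2 hg2 g hg
    obtain ⟨hb1, hB1, hC1⟩ := hl1 g hg
    obtain ⟨hb2, hB2, hC2⟩ := hl2 g hg
    have e1 := approx1 (2 * L) η (by linarith) hη0 hη4 (q0 R1 g) (q1 R1 g) (q2 R1 g)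
      (q0 R2 g) (q1 R2 g) (q2 R2 g) (le_trans ha1 hrη) (le_trans ha2 hrη) hb1 hb2
      (by linarith) (by linarith)
    have e2 := approx2 (2 * L) η (by linarith) hη0 hη4 (q0 R1 g) (q1 R1 g) (q1' R1 g) (q2 R1 g)
      (q2' R1 g) (q0 R2 g) (q1 R2 g) (q1' R2 g) (q2 R2 g) (q2' R2 g)
      (le_trans ha1 hrη) (le_trans ha2 hrη) hb1 hb2 hB1 hB2
      (by linarith) (by linarith) hC1 hC2
    rw [hδ] at e1 e2
    refine pos4_pt _ _ _ _ (D * r) L hδ0 hDr ?_ ?_ e1 e2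
    · rw [abs_le] at hc1 hc2 ⊢
      constructor
      · linarith
      · linarith
    · rw [abs_le] at hC1 hC2 ⊢
      constructor
      · linarith
      · linarith
  have hf := fib4 R1 R2 hR1 hR2 m M hm hM hmM (fun g hg => by
    obtain ⟨_, h2, h3⟩ := hg1 g hg
    obtain ⟨_, h2', h3'⟩ := hg2 g hg
    constructor
    · linarith
    · linarith) g hg
  have hfr := fr_basic.2.2.1
  have hsum : ∑ j ∈ Finset.range 4,
        (((1 - (q2 R1 (rV ((j:ℝ) * (Real.pi / 4)) g) + q2 R2 (rV ((j:ℝ) * (Real.pi / 4)) g)) / 2) ^ 2 -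
          (q2' R1 (rV ((j:ℝ) * (Real.pi / 4)) g) + q2' R2 (rV ((j:ℝ) * (Real.pi / 4)) g)) ^ 2) -
          (3 + 10 * L) * (D * r)) ≤
      ∑ j ∈ Finset.range 4, ((PH R1 R2 (rV ((j:ℝ) * (Real.pi / 4)) g)) ^ 2 -
        (VPH R1 R2 (rV ((j:ℝ) * (Real.pi / 4)) g)) ^ 2) :=
    Finset.sum_le_sum (fun j _ => hpt _ (hfr _ g hg))
  rw [Finset.sum_sub_distrib, Finset.sum_const, Finset.card_range] at hsum
  have h4 : (4:ℕ) • ((3 + 10 * L) * (D * r)) = A * r / 2 := by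
    rw [hA, nsmul_eq_mul]; push_cast; ring
  rw [h4] at hsum
  have h5 := hf.2
  linarith

end Pool.Agent.Helper584.PG
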