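import Pool.Agent.Helper584.PL.Defs

set_option autoImplicit false

open MeasureTheory Set Filter Topology

noncomputable section

namespace Pool.Agent.Helper584.PG



theorem ln_hasDerivAt (a b c : ℝ → ℝ) (t : ℝ) (ha : 0 < a t)
    (h1 : HasDerivAt a (b t) t) (h2 : HasDerivAt b (c t) t) :
    HasDerivAt (fun s => ln (a s) (b s)) ((a t * b t + b t * c t) / ln (a t) (b t)) t := by
  have hpos : 0 < a t ^ 2 + b t ^ 2 := by positivity
  have h := ((h1.pow 2).add (h2.pow 2)).sqrt hpos.ne'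
  have hs : 0 < Real.sqrt (a t ^ 2 + b t ^ 2) := Real.sqrt_pos.mpr hpos
  unfold ln
  refine h.congr_deriv ?_
  simp only [Pi.add_apply, Pi.pow_apply]
  have e : ((2:ℕ):ℝ) * a t ^ (2 - 1) * b t + ((2:ℕ):ℝ) * b t ^ (2 - 1) * c t
      = 2 * (a t * b t + b t * c t) := by
    push_cast; ring
  rw [e]
  field_simp

theorem ph_X (a1 b1 c1 a2 b2 c2 : ℝ → ℝ) (t : ℝ) (ha1 : 0 < a1 t) (ha2 : 0 < a2 t)
    (h1 : HasDerivAt a1 (b1 t) t) (h2 : HasDerivAt b1 (c1 t) t)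
    (h3 : HasDerivAt a2 (b2 t) t) (h4 : HasDerivAt b2 (c2 t) t) :
    HasDerivAt (fun s => (b1 s + b2 s) * (a1 s - a2 s) / (ln (a1 s) (b1 s) + ln (a2 s) (b2 s)))
      (ln (a1 t) (b1 t) - ln (a2 t) (b2 t) -
        (a1 t - a2 t) * ph (a1 t) (b1 t) (c1 t) (a2 t) (b2 t) (c2 t)) t := by
  have hS1 := ln_hasDerivAt a1 b1 c1 t ha1 h1 h2
  have hS2 := ln_hasDerivAt a2 b2 c2 t ha2 h3 h4
  have p1 : 0 < ln (a1 t) (b1 t) := Real.sqrt_pos.mpr (by positivity)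
  have p2 : 0 < ln (a2 t) (b2 t) := Real.sqrt_pos.mpr (by positivity)
  have q1 : ln (a1 t) (b1 t) ^ 2 = a1 t ^ 2 + b1 t ^ 2 := Real.sq_sqrt (by positivity)
  have q2 : ln (a2 t) (b2 t) ^ 2 = a2 t ^ 2 + b2 t ^ 2 := Real.sq_sqrt (by positivity)
  have hne : ln (a1 t) (b1 t) + ln (a2 t) (b2 t) ≠ 0 := by positivity
  have h := ((h2.add h4).mul (h1.sub h3)).div (hS1.add hS2) hne
  refine h.congr_deriv ?_
  simp only [Pi.add_apply, Pi.sub_apply, Pi.mul_apply]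
  unfold ph
  generalize ln (a1 t) (b1 t) = S1 at *
  generalize ln (a2 t) (b2 t) = S2 at *
  have hdiff : S1 - S2 = ((a1 t ^ 2 + b1 t ^ 2) - (a2 t ^ 2 + b2 t ^ 2)) / (S1 + S2) := by
    rw [← q1, ← q2]; field_simp; ring
  rw [hdiff]
  generalize (a1 t * b1 t + b1 t * c1 t) / S1 = D1 at *
  generalize (a2 t * b2 t + b2 t * c2 t) / S2 = D2 at *
  field_simp
  ring

end Pool.Agent.Helper584.PG
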