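import Pool.Agent.Helper584.PL.Defs
import Pool.Agent.Helper584.PL.P_fr_basic
import Pool.Agent.Helper584.PL.P_calcX
import Pool.Agent.Helper584.PL.P_ph_X
import Pool.Agent.Helper584.PL.P_S_eq
import Pool.Agent.Helper584.PL.P_cont_q
import Pool.Agent.Helper584.PL.P_cont_F

set_option autoImplicit false

open MeasureTheory Set Filter Topology

noncomputable section

namespace Pool.Agent.Helper584.PG



theorem zero_mean_aux_pos (N : E → ℝ) (h : IsG N) (g : T) (hg : g ∈ Fr) :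
    0 < q0 (rad N) g := by
  have hne : g.1 ≠ 0 := by
    intro h0
    have := hg.1
    rw [h0, norm_zero] at this
    norm_num at this
  exact inv_pos.2 (h.pos _ hne)

theorem zero_mean_aux_int (a1 b1 c1 a2 b2 c2 F S1 S2 : ℝ → ℝ) (T0 : ℝ)
    (p1 : ∀ t, 0 < a1 t) (p2 : ∀ t, 0 < a2 t)
    (h1 : ∀ t, HasDerivAt a1 (b1 t) t) (h2 : ∀ t, HasDerivAt b1 (c1 t) t)
    (h3 : ∀ t, HasDerivAt a2 (b2 t) t) (h4 : ∀ t, HasDerivAt b2 (c2 t) t)
    (hF : ∀ t, F t = (a1 t - a2 t) * ph (a1 t) (b1 t) (c1 t) (a2 t) (b2 t) (c2 t))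
    (hS1 : ∀ t, S1 t = ln (a1 t) (b1 t)) (hS2 : ∀ t, S2 t = ln (a2 t) (b2 t))
    (cF : Continuous F) (cS1 : Continuous S1) (cS2 : Continuous S2)
    (q1 : a1 T0 = a1 0) (q2 : b1 T0 = b1 0) (q3 : a2 T0 = a2 0) (q4 : b2 T0 = b2 0)
    (hS : ∫ t in (0:ℝ)..T0, S1 t = ∫ t in (0:ℝ)..T0, S2 t) :
    ∫ t in (0:ℝ)..T0, F t = 0 := by
  have hder : ∀ t ∈ Set.uIcc (0 : ℝ) T0, HasDerivAt
      (fun s => (b1 s + b2 s) * (a1 s - a2 s) / (ln (a1 s) (b1 s) + ln (a2 s) (b2 s)))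
      (S1 t - S2 t - F t) t := by
    intro t _
    have := ph_X a1 b1 c1 a2 b2 c2 t (p1 t) (p2 t) (h1 t) (h2 t) (h3 t) (h4 t)
    rw [← hS1, ← hS2, ← hF] at this
    exact this
  have hint := intervalIntegral.integral_eq_sub_of_hasDerivAt hder
    (((cS1.sub cS2).sub cF).intervalIntegrable _ _)
  rw [q1, q2, q3, q4, sub_self] at hint
  have e1 : (∫ t in (0:ℝ)..T0, (S1 t - S2 t - F t)) =
      (∫ t in (0:ℝ)..T0, (S1 t - S2 t)) - ∫ t in (0:ℝ)..T0, F t :=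
    intervalIntegral.integral_sub ((cS1.sub cS2).intervalIntegrable _ _)
      (cF.intervalIntegrable _ _)
  have e2 : (∫ t in (0:ℝ)..T0, (S1 t - S2 t)) =
      (∫ t in (0:ℝ)..T0, S1 t) - ∫ t in (0:ℝ)..T0, S2 t :=
    intervalIntegral.integral_sub (cS1.intervalIntegrable _ _) (cS2.intervalIntegrable _ _)
  rw [e1, e2, hS] at hint
  linarith

theorem zero_mean_aux_cont (g : T) : Continuous (fun t : ℝ => rX t g) := by
  unfold rX
  fun_prop

theorem zero_mean_aux_comp (F : T → ℝ) (hF : ContinuousOn F Fr) (g : T) (hg : g ∈ Fr) :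
    Continuous (fun t : ℝ => F (rX t g)) := by
  have hX := fr_basic.2.1
  have hF' : ∀ t, rX t g ∈ Fr := fun t => hX t g hg
  exact ContinuousOn.comp_continuous (g := F) (f := fun t : ℝ => rX t g) hF
    (zero_mean_aux_cont g) hF'

theorem zero_mean_aux_cS (R : E → ℝ) (hR : ContDiffOn ℝ 2 R {0}ᶜ) (g : T) (hg : g ∈ Fr) :
    Continuous (fun t : ℝ => ln (q0 R (rX t g)) (q1 R (rX t g))) := by
  have c10 := (cont_q R hR).1
  have c11 := (cont_q R hR).2.1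
  have k10 : Continuous (fun t : ℝ => q0 R (rX t g)) := zero_mean_aux_comp (q0 R) c10 g hg
  have k11 : Continuous (fun t : ℝ => q1 R (rX t g)) := zero_mean_aux_comp (q1 R) c11 g hg
  unfold ln
  exact ((k10.pow 2).add (k11.pow 2)).sqrt

theorem zero_mean (N1 N2 : E → ℝ) (h1 : IsG N1) (h2 : IsG N2)
    (hc1 : ContDiffOn ℝ 2 (rad N1) {0}ᶜ) (hc2 : ContDiffOn ℝ 2 (rad N2) {0}ᶜ) (g : T) (hg : g ∈ Fr)
    (hp : ∫ t in (0:ℝ)..(2 * Real.pi), plS (nn N1 g) t =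
      ∫ t in (0:ℝ)..(2 * Real.pi), plS (nn N2 g) t) :
    ∫ t in (0:ℝ)..(2 * Real.pi), FF (rad N1) (rad N2) (rX t g) = 0 := by
  have hper : rX (2 * Real.pi) g = rX 0 g := by
    unfold rX
    rw [Real.cos_two_pi, Real.sin_two_pi, Real.cos_zero, Real.sin_zero]
  have hX := fr_basic.2.1
  have hF : ∀ t, rX t g ∈ Fr := fun t => hX t g hg
  have pos1 : ∀ x, x ≠ 0 → 0 < rad N1 x := fun x hx => inv_pos.2 (h1.pos x hx)
  have pos2 : ∀ x, x ≠ 0 → 0 < rad N2 x := fun x hx => inv_pos.2 (h2.pos x hx)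
  have cF := (cont_F (rad N1) (rad N2) hc1 hc2 pos1 pos2).2.2.1
  have cF' : Continuous (fun t : ℝ => FF (rad N1) (rad N2) (rX t g)) :=
    zero_mean_aux_comp (FF (rad N1) (rad N2)) cF g hg
  refine zero_mean_aux_int (fun t => q0 (rad N1) (rX t g)) (fun t => q1 (rad N1) (rX t g))
    (fun t => q2 (rad N1) (rX t g)) (fun t => q0 (rad N2) (rX t g))
    (fun t => q1 (rad N2) (rX t g)) (fun t => q2 (rad N2) (rX t g))
    (fun t => FF (rad N1) (rad N2) (rX t g)) (plS (nn N1 g)) (plS (nn N2 g)) (2 * Real.pi)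
    ?_ ?_ ?_ ?_ ?_ ?_ ?_ ?_ ?_ cF' ?_ ?_ ?_ ?_ ?_ ?_ hp
  · exact fun t => zero_mean_aux_pos N1 h1 _ (hF t)
  · exact fun t => zero_mean_aux_pos N2 h2 _ (hF t)
  · exact fun t => (calcX (rad N1) hc1 g hg t).1
  · exact fun t => (calcX (rad N1) hc1 g hg t).2
  · exact fun t => (calcX (rad N2) hc2 g hg t).1
  · exact fun t => (calcX (rad N2) hc2 g hg t).2
  · intro t
    rfl
  · exact fun t => S_eq N1 h1 hc1 g hg t
  · exact fun t => S_eq N2 h2 hc2 g hg t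
  · rw [show plS (nn N1 g) = fun t : ℝ => ln (q0 (rad N1) (rX t g)) (q1 (rad N1) (rX t g)) from
      funext fun t => S_eq N1 h1 hc1 g hg t]
    exact zero_mean_aux_cS (rad N1) hc1 g hg
  · rw [show plS (nn N2 g) = fun t : ℝ => ln (q0 (rad N2) (rX t g)) (q1 (rad N2) (rX t g)) from
      funext fun t => S_eq N2 h2 hc2 g hg t]
    exact zero_mean_aux_cS (rad N2) hc2 g hg
  · show q0 (rad N1) (rX (2 * Real.pi) g) = q0 (rad N1) (rX 0 g)
    rw [hper]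
  · show q1 (rad N1) (rX (2 * Real.pi) g) = q1 (rad N1) (rX 0 g)
    rw [hper]
  · show q0 (rad N2) (rX (2 * Real.pi) g) = q0 (rad N2) (rX 0 g)
    rw [hper]
  · show q1 (rad N2) (rX (2 * Real.pi) g) = q1 (rad N2) (rX 0 g)
    rw [hper]

end Pool.Agent.Helper584.PG
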