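import Pool.Agent.Helper584.PL.Defs
import Pool.Agent.Helper584.PL.P_fr_basic
import Pool.Agent.Helper584.PL.P_fm_exists
import Pool.Agent.Helper584.PL.P_zero_mean
import Pool.Agent.Helper584.PL.P_core_energy
import Pool.Agent.Helper584.PL.P_core_zero
import Pool.Agent.Helper584.PL.P_pos4

set_option autoImplicit false

open MeasureTheory Set Filter Topology

noncomputable section

namespace Pool.Agent.Helper584.PG



theorem local_N (m M : ℝ) (hm : 0 < m) (hM : M < (5 + 2 * Real.sqrt 6) * m) (hmM : m ≤ M) :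
    ∃ ε : ℝ, 0 < ε ∧ ∀ N1 N2 : E → ℝ, IsG N1 → IsG N2 → ContDiffOn ℝ 2 (rad N1) {0}ᶜ →
      ContDiffOn ℝ 2 (rad N2) {0}ᶜ →
      (∀ g ∈ Fr, |q0 (rad N1) g - 1| ≤ ε ∧ m ≤ 1 - q2 (rad N1) g ∧ 1 - q2 (rad N1) g ≤ M) →
      (∀ g ∈ Fr, |q0 (rad N2) g - 1| ≤ ε ∧ m ≤ 1 - q2 (rad N2) g ∧ 1 - q2 (rad N2) g ≤ M) →
      (∀ g ∈ Fr, ∫ t in (0:ℝ)..(2 * Real.pi), plS (nn N1 g) t =
        ∫ t in (0:ℝ)..(2 * Real.pi), plS (nn N2 g) t) →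
      ∀ g ∈ Fr, N1 g.1 = N2 g.1 := by
  obtain ⟨ε, hε, κ, hκ, hpos4⟩ := pos4 m M hm hM hmM
  refine ⟨ε, hε, ?_⟩
  intro N1 N2 h1 h2 hc1 hc2 hb1 hb2 hper g hg
  obtain ⟨μ, hμ⟩ := fm_exists
  have p1 : ∀ x, x ≠ 0 → 0 < rad N1 x := fun x hx => inv_pos.2 (h1.pos x hx)
  have p2 : ∀ x, x ≠ 0 → 0 < rad N2 x := fun x hx => inv_pos.2 (h2.pos x hx)
  have e1 : ∀ x, rad N1 (-x) = rad N1 x := fun x => by simp [rad, h1.even x]
  have e2 : ∀ x, rad N2 (-x) = rad N2 x := fun x => by simp [rad, h2.even x]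
  have hz : ∀ g ∈ Fr, ∫ t in (0:ℝ)..(2 * Real.pi), FF (rad N1) (rad N2) (rX t g) = 0 :=
    fun g hg => zero_mean N1 N2 h1 h2 hc1 hc2 g hg (hper g hg)
  have hE := core_energy μ hμ (rad N1) (rad N2) hc1 hc2 p1 p2 e1 e2 hz
  have hp := hpos4 (rad N1) (rad N2) hc1 hc2 hb1 hb2
  have h3 := core_zero μ hμ (rad N1) (rad N2) hc1 hc2 p1 p2 hE κ hκ hp g hg
  exact inv_injective h3

end Pool.Agent.Helper584.PG
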